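import Pool.Agent.Helper59.EXR.Fin
import Pool.Agent.Helper59.EX.St.D4

/-!
EXR: relative minimal spanning subgraphs with finitely many labels.
-/

namespace Pool.Agent.Helper59.EXR

open Pool.Agent.Helper59.EX MeasureTheory

section

variable {G I : Type} [Group G] [Fintype I] {n : ℕ}

/-- The label of an edge. -/
noncomputable def lab (x : G → Fin n) (e : G × I) : ℕ :=
  (x e.1 : ℕ) * Fintype.card I + (Fintype.equivFin I e.2 : ℕ)

omit [Group G] in
theorem lab_inj (x : G → Fin n) (e f : G × I) (h : lab x e = lab x f) :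
    x e.1 = x f.1 ∧ e.2 = f.2 := by
  unfold lab at h
  have h1 := (Fintype.equivFin I e.2).2
  have h2 := (Fintype.equivFin I f.2).2
  have h3 : ((x e.1 : ℕ) * Fintype.card I + (Fintype.equivFin I e.2 : ℕ)) % Fintype.card I =
      ((x f.1 : ℕ) * Fintype.card I + (Fintype.equivFin I f.2 : ℕ)) % Fintype.card I := by rw [h]
  rw [Nat.add_comm, Nat.add_mul_mod_self_right, Nat.mod_eq_of_lt h1,
    Nat.add_comm, Nat.add_mul_mod_self_right, Nat.mod_eq_of_lt h2] at h3
  have h4 : e.2 = f.2 := (Fintype.equivFin I).injective (Fin.ext h3)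
  rw [h4] at h
  have h5 : 0 < Fintype.card I := by omega
  have h6 := Nat.eq_of_mul_eq_mul_right h5 (Nat.add_right_cancel h)
  exact ⟨Fin.ext h6, h4⟩

/-- The edge `e` does not have the strictly largest label in a closed walk of length at most
`N + 1` in the quotient graph. -/
def Keep (H : Subgroup G) (s : I → G) (N : ℕ) (x : G → Fin n) (e : G × I) : Prop :=
  ¬ ∃ l : List ((G × I) × Bool), l.length ≤ N ∧
    IsRWalk H s (QuotientGroup.mk (e.1 * s e.2)) l (QuotientGroup.mk e.1) ∧
    ∀ f ∈ l, lab x f.1 < lab x e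

theorem lab_shift (g : G) (x : G → Fin n) (h : G) (i : I) :
    lab (shift g x) (g * h, i) = lab x (h, i) := by
  unfold lab shift
  rw [inv_mul_cancel_left]

theorem keep_shift_aux (H : Subgroup G) (s : I → G) (N : ℕ) (g : G) (x : G → Fin n) (e : G × I)
    (h : Keep H s N (shift g x) (g * e.1, e.2)) : Keep H s N x e := by
  rintro ⟨l, h1, h2, h3⟩
  refine h ⟨l.map (RK_sh g), by simpa using h1, ?_, ?_⟩
  · have := RK_walk_shift H s g l _ _ h2
    rw [← mul_assoc] at this
    exact this
  · intro f hf
    obtain ⟨f', hf', rfl⟩ := List.mem_map.1 hf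
    have h4 := h3 f' hf'
    have e1 : lab (shift g x) ((RK_sh g f').1) = lab x f'.1 := lab_shift g x f'.1.1 f'.1.2
    have e2 : lab (shift g x) (g * e.1, e.2) = lab x e := lab_shift g x e.1 e.2
    rw [e1, e2]
    exact h4

theorem keep_shift (H : Subgroup G) (s : I → G) (N : ℕ) (g : G) (x : G → Fin n) (e : G × I) :
    Keep H s N (shift g x) (g * e.1, e.2) ↔ Keep H s N x e := by
  constructor
  · exact keep_shift_aux H s N g x e
  · intro h
    refine keep_shift_aux H s N g⁻¹ (shift g x) (g * e.1, e.2) ?_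
    have e1 : shift g⁻¹ (shift g x) = x := by
      funext h
      simp [shift]
    rw [e1]
    simpa using h

/-- The reversed walk in the quotient graph. -/
theorem rwalk_rev (H : Subgroup G) (s : I → G) (l : List ((G × I) × Bool)) (a b : G ⧸ H)
    (h : IsRWalk H s a l b) : IsRWalk H s b (N1_rev l) a := by
  induction l generalizing a with
  | nil => exact Eq.symm h
  | cons e l ih =>
    rw [rwalk_cons] at h
    have h1 := ih _ h.2
    rw [N1_rev_cons, rwalk_append]
    refine ⟨_, h1, ?_⟩
    rw [rwalk_cons, N1_src_flip, N1_tgt_flip]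
    exact ⟨rfl, h.1⟩

theorem keep_forest (H : Subgroup G) (s : I → G) (N : ℕ) (x : G → Fin n) (A : Finset (G × I))
    (hA : ∀ e ∈ A, Keep H s N x e) (hN : A.card ≤ N)
    (hinj : ∀ e ∈ A, ∀ f ∈ A, lab x e = lab x f → e = f) : IsRForest H s (A : Set (G × I)) := by
  classical
  intro a l hl hin hnd
  by_contra hne
  have hne2 : (l.map Prod.fst).toFinset.Nonempty := by
    rw [List.toFinset_nonempty_iff]
    simpa using hne
  obtain ⟨e, he, hmax⟩ := Finset.exists_max_image _ (fun e => lab x e) hne2
  rw [List.mem_toFinset, List.mem_map] at he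
  obtain ⟨⟨e', d⟩, he, rfl⟩ := he
  obtain ⟨l₁, l₂, rfl⟩ := List.append_of_mem he
  have heA : e' ∈ A := by simpa using hin _ he
  have hlen : (l₁ ++ (e', d) :: l₂).length ≤ A.card := by
    have h1 : ((l₁ ++ (e', d) :: l₂).map Prod.fst).toFinset ⊆ A := by
      intro f hf
      rw [List.mem_toFinset, List.mem_map] at hf
      obtain ⟨f', hf', rfl⟩ := hf
      simpa using hin f' hf'
    have h2 := Finset.card_le_card h1
    rw [List.toFinset_card_of_nodup hnd, List.length_map] at h2
    exact h2
  have hlt : ∀ f ∈ l₂ ++ l₁, lab x f.1 < lab x e' := by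
    intro f hf
    have hf' : f ∈ l₁ ++ (e', d) :: l₂ := by
      rcases List.mem_append.1 hf with h | h
      · simp [h]
      · simp [h]
    have h1 : lab x f.1 ≤ lab x e' :=
      hmax f.1 (by rw [List.mem_toFinset]; exact List.mem_map_of_mem hf')
    refine lt_of_le_of_ne h1 fun h2 => ?_
    have h3 : f.1 = e' := hinj _ (by simpa using hin f hf') _ heA h2
    rw [List.map_append, List.map_cons] at hnd
    have h4 := List.nodup_middle.1 hnd
    rw [List.nodup_cons] at h4
    apply h4.1
    rw [List.mem_append, List.mem_map, List.mem_map]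
    rcases List.mem_append.1 hf with h | h
    · exact Or.inr ⟨f, h, h3⟩
    · exact Or.inl ⟨f, h, h3⟩
  rw [rwalk_append] at hl
  obtain ⟨b, h1, h2⟩ := hl
  rw [rwalk_cons] at h2
  obtain ⟨h2, h3⟩ := h2
  have h4 : IsRWalk H s (QuotientGroup.mk (N1_tgt s (e', d))) (l₂ ++ l₁)
      (QuotientGroup.mk (N1_src s (e', d))) := by
    rw [rwalk_append]
    exact ⟨a, h3, by rw [h2]; exact h1⟩
  rw [List.length_append, List.length_cons] at hlen
  cases d
  · refine hA e' heA ⟨N1_rev (l₂ ++ l₁), ?_, ?_, ?_⟩
    · rw [N1_rev, List.length_reverse, List.length_map, List.length_append]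
      omega
    · exact rwalk_rev H s _ _ _ h4
    · intro f hf
      obtain ⟨f', hf', h5⟩ := N1_mem_rev _ f hf
      rw [← h5]
      exact hlt f' hf'
  · refine hA e' heA ⟨l₂ ++ l₁, ?_, h4, hlt⟩
    rw [List.length_append]
    omega

/-- Joined by a walk in the graph with the edges of `ω` and of `η`. -/
def Conn {J : Type} (y : J → G) (s : I → G) (ω : Set (G × I)) (η : Set (G × J)) (a b : G) : Prop :=
  ∃ l : List ((G × (I ⊕ J)) × Bool), IsWalk (Sum.elim s y) a l b ∧
    ∀ e ∈ l, (∀ i, e.1.2 = Sum.inl i → (e.1.1, i) ∈ ω) ∧ (∀ j, e.1.2 = Sum.inr j → (e.1.1, j) ∈ η)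

section

variable {J : Type} {y : J → G} {s : I → G} {ω : Set (G × I)} {η : Set (G × J)}

omit [Fintype I] in
theorem conn_refl (a : G) : Conn y s ω η a a :=
  ⟨[], rfl, by simp⟩

omit [Fintype I] in
theorem conn_symm {a b : G} (h : Conn y s ω η a b) : Conn y s ω η b a := by
  obtain ⟨l, h1, h2⟩ := h
  refine ⟨N1_rev l, N1_walk_rev _ l _ _ h1, fun e he => ?_⟩
  obtain ⟨f, hf, h3⟩ := N1_mem_rev l e he
  rw [← h3]
  exact h2 f hf

omit [Fintype I] in
theorem conn_trans {a b c : G} (h : Conn y s ω η a b) (h' : Conn y s ω η b c) :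
    Conn y s ω η a c := by
  obtain ⟨l, h1, h2⟩ := h
  obtain ⟨l', h1', h2'⟩ := h'
  refine ⟨l ++ l', (N1_walk_append _ _ _ _ _).2 ⟨_, h1, h1'⟩, fun e he => ?_⟩
  rcases List.mem_append.1 he with h | h
  · exact h2 e h
  · exact h2' e h

omit [Fintype I] in
theorem conn_edge_r (e : G × J) (he : e ∈ η) : Conn y s ω η e.1 (e.1 * y e.2) := by
  refine ⟨[((e.1, Sum.inr e.2), true)], ⟨rfl, rfl⟩, ?_⟩
  intro f hf
  rw [List.mem_singleton] at hf
  rw [hf]
  refine ⟨fun i hi => absurd hi (by simp), fun j hj => ?_⟩
  have h1 : e.2 = j := Sum.inr_injective hj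
  rw [← h1]
  exact he

omit [Fintype I] in
theorem conn_edge_l (e : G × I) (he : e ∈ ω) : Conn y s ω η e.1 (e.1 * s e.2) := by
  refine ⟨[((e.1, Sum.inl e.2), true)], ⟨rfl, rfl⟩, ?_⟩
  intro f hf
  rw [List.mem_singleton] at hf
  rw [hf]
  refine ⟨fun i hi => ?_, fun j hj => absurd hj (by simp)⟩
  have h1 : e.2 = i := Sum.inl_injective hi
  rw [← h1]
  exact he

omit [Fintype I] in
theorem conn_walk (H : Subgroup G)
    (hη : ∀ a b : G, (QuotientGroup.mk a : G ⧸ H) = QuotientGroup.mk b → Conn y s ω η a b)
    (l : List ((G × I) × Bool))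
    (hl : ∀ f ∈ l, Conn y s ω η f.1.1 (f.1.1 * s f.1.2)) (a b : G)
    (h : IsRWalk H s (QuotientGroup.mk a) l (QuotientGroup.mk b)) : Conn y s ω η a b := by
  induction l generalizing a with
  | nil => exact hη a b h
  | cons e l ih =>
    rw [rwalk_cons] at h
    have h1 := conn_symm (hη _ _ h.1)
    have h2 := ih (fun f hf => hl f (List.mem_cons_of_mem _ hf)) _ h.2
    refine conn_trans h1 (conn_trans ?_ h2)
    have h3 := hl e List.mem_cons_self
    obtain ⟨⟨g, i⟩, d⟩ := e
    cases d
    · exact conn_symm h3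
    · exact h3

end

section

variable {J : Type} (y : J → G) (s : I → G) (η : Set (G × J))

/-- The kept edges connect the quotient graph. -/
theorem conn_keep (H : Subgroup G) (N : ℕ) (x : G → Fin n)
    (hη : ∀ a b : G, (QuotientGroup.mk a : G ⧸ H) = QuotientGroup.mk b →
      Conn y s {e | Keep H s N x e} η a b) (e : G × I) :
    Conn y s {e | Keep H s N x e} η e.1 (e.1 * s e.2) := by
  suffices K : ∀ (m : ℕ) (e : G × I), lab x e = m →
      Conn y s {e | Keep H s N x e} η e.1 (e.1 * s e.2) from K _ e rfl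
  intro m
  induction m using Nat.strong_induction_on with
  | _ m ih =>
    intro e he
    by_cases hk : Keep H s N x e
    · exact conn_edge_l e hk
    · unfold Keep at hk
      rw [not_not] at hk
      obtain ⟨l, -, h2, h3⟩ := hk
      refine conn_symm (conn_walk H hη l (fun f hf => ?_) _ _ h2)
      exact ih _ (by rw [← he]; exact h3 f hf) f.1 rfl

theorem conn_all (H : Subgroup G) (hs : Subgroup.closure (Set.range s) = ⊤) (N : ℕ)
    (x : G → Fin n)
    (hη : ∀ a b : G, (QuotientGroup.mk a : G ⧸ H) = QuotientGroup.mk b →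
      Conn y s {e | Keep H s N x e} η a b) (g : G) :
    Conn y s {e | Keep H s N x e} η 1 g := by
  have h1 : ∀ a : G, ∀ z : G, Conn y s {e | Keep H s N x e} η z (z * a) := by
    intro a
    have ha : a ∈ Subgroup.closure (Set.range s) := by rw [hs]; trivial
    induction ha using Subgroup.closure_induction with
    | mem a ha => obtain ⟨i, rfl⟩ := ha; intro z; exact conn_keep y s η H N x hη (z, i)
    | one => intro z; rw [mul_one]; exact conn_refl _
    | mul a z _ _ ha hz => intro w; rw [← mul_assoc]; exact conn_trans (ha w) (hz _)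
    | inv a _ ha =>
      intro w
      have := conn_symm (ha (w * a⁻¹))
      rwa [inv_mul_cancel_right] at this
  have := h1 g 1
  rwa [one_mul] at this

end

omit [Fintype I] in
theorem conn_cyclic (c : G) (s : I → G) (ω : Set (G × I)) (a b : G)
    (h : (QuotientGroup.mk a : G ⧸ Subgroup.closure (Set.range fun _ : Unit => c)) =
      QuotientGroup.mk b) : Conn (fun _ : Unit => c) s ω Set.univ a b := by
  have h1 : ∀ y ∈ Subgroup.closure (Set.range fun _ : Unit => c), ∀ x : G,
      Conn (fun _ : Unit => c) s ω Set.univ x (x * y) := by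
    intro y hy
    induction hy using Subgroup.closure_induction with
    | mem y hy => obtain ⟨u, rfl⟩ := hy; intro x; exact conn_edge_r (x, u) (Set.mem_univ _)
    | one => intro x; rw [mul_one]; exact conn_refl _
    | mul y z _ _ hy hz => intro x; rw [← mul_assoc]; exact conn_trans (hy x) (hz _)
    | inv y _ hy =>
      intro x
      have := conn_symm (hy (x * y⁻¹))
      rwa [inv_mul_cancel_right] at this
  rw [QuotientGroup.eq] at h
  have := h1 _ h a
  rwa [mul_inv_cancel_left] at this

/-! ### Finite subgroups -/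

/-- The label at `g * h` is the strictly largest label on the coset of `g`. -/
def Top (H : Subgroup G) (x : G → Fin n) (g : G) (h : H) : Prop :=
  ∀ z : H, z ≠ h → x (g * z) < x (g * h)

/-- Two labels on the coset of `g` agree. -/
def Tie (H : Subgroup G) (x : G → Fin n) (g : G) : Prop :=
  ¬ ∀ z z' : H, x (g * z) = x (g * z') → z = z'

/-- The random edges in the cosets. -/
def starS (H : Subgroup G) (x : G → Fin n) : Set (G × H) :=
  {e | e.2 ≠ 1 ∧ (Top H x e.1 e.2 ∨ Tie H x e.1)}

omit [Fintype I] in
theorem conn_finite (H : Subgroup G) [Finite H] (s : I → G) (ω : Set (G × I)) (x : G → Fin n)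
    (a b : G) (h : (QuotientGroup.mk a : G ⧸ H) = QuotientGroup.mk b) :
    Conn (fun z : H => (z : G)) s ω (starS H x) a b := by
  have h1 : ∀ (g : G) (z : H), Conn (fun z : H => (z : G)) s ω (starS H x) g (g * z) := by
    intro g z
    by_cases ht : Tie H x g
    · by_cases hz : z = 1
      · rw [hz, OneMemClass.coe_one, mul_one]
        exact conn_refl _
      · exact conn_edge_r (y := fun z : H => (z : G)) (g, z) ⟨hz, Or.inr ht⟩
    · unfold Tie at ht
      rw [not_not] at ht
      obtain ⟨h0, hmax⟩ := Finite.exists_max (fun z : H => x (g * z))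
      have hlt : ∀ w : H, w ≠ h0 → x (g * w) < x (g * h0) := fun w hw =>
        lt_of_le_of_ne (hmax w) fun h => hw (ht _ _ h)
      have h2 : ∀ w : H, Conn (fun z : H => (z : G)) s ω (starS H x) (g * w) (g * h0) := by
        intro w
        by_cases hw : w⁻¹ * h0 = 1
        · have : w = h0 := inv_mul_eq_one.1 hw
          rw [this]
          exact conn_refl _
        · have h3 := conn_edge_r (y := fun z : H => (z : G)) (s := s) (ω := ω)
            (η := starS H x) (g * w, w⁻¹ * h0) ⟨hw, Or.inl (by
              intro v hv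
              have e1 : g * (w : G) * (v : G) = g * ((w * v : H) : G) := by
                rw [Subgroup.coe_mul, mul_assoc]
              have e2 : g * (w : G) * ((w⁻¹ * h0 : H) : G) = g * (h0 : G) := by
                rw [Subgroup.coe_mul, Subgroup.coe_inv]
                group
              show x (g * (w : G) * (v : G)) < x (g * (w : G) * ((w⁻¹ * h0 : H) : G))
              rw [e1, e2]
              refine hlt _ fun h4 => hv ?_
              rw [← h4, inv_mul_cancel_left])⟩
          have e3 : (g * (w : G)) * ((w⁻¹ * h0 : H) : G) = g * (h0 : G) := by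
            rw [Subgroup.coe_mul, Subgroup.coe_inv]
            group
          have h4 : Conn (fun z : H => (z : G)) s ω (starS H x) (g * w)
            ((g * (w : G)) * ((w⁻¹ * h0 : H) : G)) := h3
          rw [e3] at h4
          exact h4
      have h3 := h2 1
      rw [OneMemClass.coe_one, mul_one] at h3
      exact conn_trans h3 (conn_symm (h2 z))
  rw [QuotientGroup.eq] at h
  have := h1 a ⟨_, h⟩
  rwa [mul_inv_cancel_left] at this

end

end Pool.Agent.Helper59.EXR
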