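import Pool.Agent.Helper59.EXR.Cost1

/-!
EXR: groups whose Bernoulli actions have cost greater than one.
-/

namespace Pool.Agent.Helper59.EXR

open Pool.Agent.Helper59.EX MeasureTheory

/-- All finitely generated graphings of the Bernoulli actions of `G` with finite uniform base have
cost at least `C`. A graphing is given by elements `t j` of `G` and measurable sets `A j`: the
point `x` is joined to its translate by `t j` if `x ∈ A j`. -/
def BernoulliCostGE (G : Type) [Group G] (C : ℝ) : Prop :=
  ∀ (n : ℕ) (J : Type) [Fintype J] (t : J → G) (A : J → Set (G → Fin (n + 1))),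
    (∀ j, MeasurableSet (A j)) →
    (∀ᵐ x ∂(mu (Fin (n + 1)) G), ∀ g : G, ∃ l : List ((G × J) × Bool), IsWalk t 1 l g ∧
      ∀ e ∈ l, shift e.1.1⁻¹ x ∈ A e.1.2) →
    C ≤ ∑ j, (mu (Fin (n + 1)) G).real (A j)

section

variable {G I : Type} [Group G] [Fintype I]

omit [Group G] in
theorem meas_lab_lt {n : ℕ} (e f : G × I) :
    MeasurableSet {x : G → Fin (n + 1) | lab x f < lab x e} := by
  have h1 : Measurable (fun x : G → Fin (n + 1) => (x f.1, x e.1)) :=
    (measurable_pi_apply f.1).prodMk (measurable_pi_apply e.1)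
  have h2 : {x : G → Fin (n + 1) | lab x f < lab x e} =
      (fun x : G → Fin (n + 1) => (x f.1, x e.1)) ⁻¹' {p : Fin (n + 1) × Fin (n + 1) |
        (p.1 : ℕ) * Fintype.card I + (Fintype.equivFin I f.2 : ℕ) <
          (p.2 : ℕ) * Fintype.card I + (Fintype.equivFin I e.2 : ℕ)} := rfl
  rw [h2]
  exact h1 (Set.toFinite _).measurableSet

theorem meas_keep [Countable G] {n : ℕ} (H : Subgroup G) (s : I → G) (N : ℕ) (e : G × I) :
    MeasurableSet {x : G → Fin (n + 1) | Keep H s N x e} := by
  have h1 : {x : G → Fin (n + 1) | Keep H s N x e} =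
      (⋃ l : List ((G × I) × Bool), {x : G → Fin (n + 1) | (l.length ≤ N ∧
        IsRWalk H s (QuotientGroup.mk (e.1 * s e.2)) l (QuotientGroup.mk e.1)) ∧
        ∀ f ∈ l, lab x f.1 < lab x e})ᶜ := by
    ext x
    simp only [Keep, Set.mem_setOf_eq, Set.mem_compl_iff, Set.mem_iUnion, and_assoc]
  rw [h1]
  have hc : Countable (List ((G × I) × Bool)) := inferInstance
  refine (MeasurableSet.iUnion fun l => ?_).compl
  have h2 : {x : G → Fin (n + 1) | (l.length ≤ N ∧
        IsRWalk H s (QuotientGroup.mk (e.1 * s e.2)) l (QuotientGroup.mk e.1)) ∧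
        ∀ f ∈ l, lab x f.1 < lab x e} =
      {x : G → Fin (n + 1) | (l.length ≤ N ∧
        IsRWalk H s (QuotientGroup.mk (e.1 * s e.2)) l (QuotientGroup.mk e.1))} ∩
      ⋂ f ∈ {f | f ∈ l}, {x : G → Fin (n + 1) | lab x f.1 < lab x e} := by
    ext x
    simp only [Set.mem_setOf_eq, Set.mem_inter_iff, Set.mem_iInter]
  rw [h2]
  refine (MeasurableSet.const _).inter ?_
  refine MeasurableSet.biInter (List.finite_toSet l).countable fun f _ => meas_lab_lt _ _

/-- The random set of kept edges. -/
noncomputable def keepMap (H : Subgroup G) (s : I → G) (N : ℕ) {n : ℕ} (x : G → Fin (n + 1))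
    (e : G × I) : Bool :=
  open Classical in decide (Keep H s N x e)

theorem meas_keepMap [Countable G] (H : Subgroup G) (s : I → G) (N n : ℕ) :
    Measurable (keepMap H s N : (G → Fin (n + 1)) → (G × I → Bool)) := by
  refine measurable_pi_lambda _ fun e => ?_
  refine measurable_to_countable' fun b => ?_
  have h := meas_keep (n := n) H s N e
  cases b
  · have h1 : (fun x : G → Fin (n + 1) => keepMap H s N x e) ⁻¹' {false} =
        {x : G → Fin (n + 1) | Keep H s N x e}ᶜ := by
      ext x
      simp [keepMap]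
    rw [h1]
    exact h.compl
  · have h1 : (fun x : G → Fin (n + 1) => keepMap H s N x e) ⁻¹' {true} =
        {x : G → Fin (n + 1) | Keep H s N x e} := by
      ext x
      simp [keepMap]
    rw [h1]
    exact h

/-- The law of the random set of kept edges. -/
noncomputable def keepLaw (H : Subgroup G) (s : I → G) (N : ℕ) : Measure (G × I → Bool) :=
  (mu (Fin (N + 1)) G).map (keepMap H s N)

instance keepLaw_prob [Countable G] (H : Subgroup G) (s : I → G) (N : ℕ) :
    IsProbabilityMeasure (keepLaw H s N) :=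
  Measure.isProbabilityMeasure_map (meas_keepMap H s N N).aemeasurable

theorem keepLaw_inv [Countable G] (H : Subgroup G) (s : I → G) (N : ℕ) (g : G) :
    (keepLaw H s N).map (fun ω e => ω (g⁻¹ * e.1, e.2)) = keepLaw H s N := by
  have hT : Measurable (fun (ω : G × I → Bool) (e : G × I) => ω (g⁻¹ * e.1, e.2)) :=
    measurable_pi_lambda _ fun e => measurable_pi_apply _
  unfold keepLaw
  rw [Measure.map_map hT (meas_keepMap H s N N)]
  have h1 : ((fun (ω : G × I → Bool) (e : G × I) => ω (g⁻¹ * e.1, e.2)) ∘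
      (keepMap H s N : (G → Fin (N + 1)) → (G × I → Bool))) =
      (keepMap H s N : (G → Fin (N + 1)) → (G × I → Bool)) ∘ shift g := by
    funext x e
    have h2 := keep_shift H s N g x (g⁻¹ * e.1, e.2)
    rw [mul_inv_cancel_left] at h2
    simp only [Function.comp_apply, keepMap]
    rw [decide_eq_decide]
    exact h2.symm
  rw [h1, ← Measure.map_map (meas_keepMap H s N N) (measurable_shift g), (mu_shift g).map_eq]

/-- Two labels agree with small probability. -/
theorem prob_eq (n : ℕ) (g h : G) (hgh : g ≠ h) :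
    (mu (Fin (n + 1)) G).real {x | x g = x h} ≤ 1 / (n + 1) := by
  classical
  have h1 : {x : G → Fin (n + 1) | x g = x h} = ⋃ a ∈ (Finset.univ : Finset (Fin (n + 1))),
      {x : G → Fin (n + 1) | x g = a ∧ x h = a} := by
    ext x
    simp only [Set.mem_setOf_eq, Set.mem_iUnion, Finset.mem_univ, exists_prop, true_and]
    constructor
    · intro hx; exact ⟨x g, rfl, hx.symm⟩
    · rintro ⟨a, h1, h2⟩; rw [h1, h2]
  have h2 : ∀ a : Fin (n + 1), (mu (Fin (n + 1)) G).real {x | x g = a ∧ x h = a} =
      (1 / (n + 1)) ^ 2 := by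
    intro a
    have h3 : {x : G → Fin (n + 1) | x g = a ∧ x h = a} =
        Set.pi (({g, h} : Finset G) : Set G) (fun _ => {a}) := by
      ext x
      simp [Set.mem_pi]
    rw [h3, measureReal_def]
    unfold mu
    rw [Measure.infinitePi_pi (fun _ : G => unif (Fin (n + 1)))
      (fun i _ => MeasurableSet.singleton a), Finset.prod_const, Finset.card_pair hgh,
      ENNReal.toReal_pow]
    congr 1
    have h4 := D4_unif_real (E := Fin (n + 1)) {a}
    rw [measureReal_def] at h4
    rw [h4]
    simp only [Set.mem_singleton_iff, Fintype.card_fin, Nat.cast_add, Nat.cast_one]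
    congr 1
    rw [Finset.filter_eq' Finset.univ a]
    simp
  rw [h1]
  refine (measureReal_biUnion_finset_le _ _).trans ?_
  simp only [h2, Finset.sum_const, Finset.card_univ, Fintype.card_fin, nsmul_eq_mul]
  have : (0 : ℝ) < n + 1 := by positivity
  push_cast
  rw [one_div, inv_pow, pow_two]
  field_simp
  exact le_refl _

/-- Sets of edges with two equal labels have small probability. -/
theorem prob_not_inj (n : ℕ) (A : Finset (G × I)) :
    (mu (Fin (n + 1)) G).real {x | ¬ ∀ e ∈ A, ∀ f ∈ A, lab x e = lab x f → e = f} ≤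
      (A.card : ℝ) ^ 2 / (n + 1) := by
  classical
  have h1 : {x : G → Fin (n + 1) | ¬ ∀ e ∈ A, ∀ f ∈ A, lab x e = lab x f → e = f} ⊆
      ⋃ p ∈ (A ×ˢ A).filter (fun p => p.1.1 ≠ p.2.1), {x : G → Fin (n + 1) |
        x p.1.1 = x p.2.1} := by
    intro x hx
    simp only [Set.mem_setOf_eq, not_forall] at hx
    obtain ⟨e, he, f, hf, h2, h3⟩ := hx
    obtain ⟨h4, h5⟩ := lab_inj x e f h2
    simp only [Set.mem_iUnion]
    refine ⟨(e, f), ?_, h4⟩
    rw [Finset.mem_filter, Finset.mem_product]
    exact ⟨⟨he, hf⟩, fun h6 => h3 (Prod.ext h6 h5)⟩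
  refine (measureReal_mono h1 (measure_ne_top _ _)).trans
    ((measureReal_biUnion_finset_le _ _).trans ?_)
  have h2 : ∀ p ∈ (A ×ˢ A).filter (fun p => p.1.1 ≠ p.2.1),
      (mu (Fin (n + 1)) G).real {x : G → Fin (n + 1) | x p.1.1 = x p.2.1} ≤ 1 / (n + 1) := by
    intro p hp
    exact prob_eq n _ _ (Finset.mem_filter.1 hp).2
  refine (Finset.sum_le_sum h2).trans ?_
  rw [Finset.sum_const, nsmul_eq_mul]
  have h3 : (((A ×ˢ A).filter (fun p => p.1.1 ≠ p.2.1)).card : ℝ) ≤ (A.card : ℝ) ^ 2 := by
    have h4 := Finset.card_filter_le (A ×ˢ A) (fun p => p.1.1 ≠ p.2.1)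
    rw [Finset.card_product] at h4
    rw [pow_two]
    exact_mod_cast h4
  have h5 : (0 : ℝ) < n + 1 := by positivity
  rw [mul_one_div]
  exact div_le_div_of_nonneg_right h3 h5.le

theorem keep_cycle [Countable G] (H : Subgroup G) (s : I → G) (N : ℕ) (F A : Finset (G × I))
    (hA : A ⊆ F) (hN : A.card ≤ N) (hfor : ¬ IsRForest H s (A : Set (G × I))) :
    measDist (keepLaw H s N) F A ≤ (A.card : ℝ) ^ 2 / (N + 1) := by
  refine le_trans ?_ (prob_not_inj N A)
  unfold measDist
  have hm : MeasurableSet {ω : G × I → Bool | ∀ e ∈ F, (ω e = true ↔ e ∈ A)} := by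
    have h : {ω : G × I → Bool | ∀ e ∈ F, (ω e = true ↔ e ∈ A)} =
        ⋂ e ∈ F, {ω : G × I → Bool | (ω e = true ↔ e ∈ A)} := by
      ext ω; simp
    rw [h]
    refine Finset.measurableSet_biInter F fun e _ => ?_
    have hp : Measurable (fun ω : G × I → Bool => ω e) := measurable_pi_apply e
    exact hp (Set.toFinite {b : Bool | (b = true ↔ e ∈ A)}).measurableSet
  unfold keepLaw
  rw [map_measureReal_apply (meas_keepMap H s N N) hm]
  refine measureReal_mono ?_
  intro x hx hinj
  refine hfor (keep_forest H s N x A (fun e he => ?_) hN hinj)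
  have h1 := (hx e (hA he)).2 he
  simpa [keepMap] using h1

/-- Lower bound for the expected degree of the graph of kept edges. -/
theorem keep_degree [Countable G] {J : Type} [Fintype J] (H : Subgroup G) (s : I → G)
    (hs : Subgroup.closure (Set.range s) = ⊤) (C : ℝ) (hC : BernoulliCostGE G C) (N : ℕ)
    (y : J → G) (B : J → Set (G → Fin (N + 1))) (hB : ∀ j, MeasurableSet (B j))
    (hη : ∀ (x : G → Fin (N + 1)) (a b : G), (QuotientGroup.mk a : G ⧸ H) = QuotientGroup.mk b →
      Conn y s {e | Keep H s N x e} {e | shift e.1⁻¹ x ∈ B e.2} a b) :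
    C - ∑ j, (mu (Fin (N + 1)) G).real (B j) ≤ ∑ i, measDist (keepLaw H s N)
      {((1 : G), i)} {((1 : G), i)} := by
  have h1 := hC N (I ⊕ J) (Sum.elim s y)
    (Sum.elim (fun i => {x : G → Fin (N + 1) | Keep H s N x (1, i)}) B) (by
      rintro (i | j)
      · exact meas_keep H s N (1, i)
      · exact hB j) (Filter.Eventually.of_forall fun x g => by
      obtain ⟨l, hl, h2⟩ := conn_all y s _ H hs N x (hη x) g
      refine ⟨l, hl, fun e he => ?_⟩
      obtain ⟨⟨z, j⟩, d⟩ := e
      rcases j with i | j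
      · have h3 := (h2 _ he).1 i rfl
        show Keep H s N (shift z⁻¹ x) (1, i)
        have h4 := keep_shift H s N z⁻¹ x (z, i)
        rw [inv_mul_cancel] at h4
        exact h4.2 h3
      · exact (h2 _ he).2 j rfl)
  rw [Fintype.sum_sum_type] at h1
  simp only [Sum.elim_inl, Sum.elim_inr] at h1
  have h2 : ∀ i : I, measDist (keepLaw H s N) {((1 : G), i)} {((1 : G), i)} =
      (mu (Fin (N + 1)) G).real {x : G → Fin (N + 1) | Keep H s N x (1, i)} := by
    intro i
    rw [measDist_singleton]
    unfold keepLaw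
    rw [map_measureReal_apply (meas_keepMap H s N N)]
    · congr 1
      ext x
      simp [keepMap]
    · have hp : Measurable (fun ω : G × I → Bool => ω ((1 : G), i)) := measurable_pi_apply _
      exact hp (MeasurableSet.singleton true)
  simp only [h2]
  linarith

theorem keep_degree_cyclic [Countable G] (c : G) (s : I → G)
    (hs : Subgroup.closure (Set.range s) = ⊤) (C : ℝ) (hC : BernoulliCostGE G C) (N : ℕ) :
    C - 1 ≤ ∑ i, measDist (keepLaw (Subgroup.closure (Set.range fun _ : Unit => c)) s N)
      {((1 : G), i)} {((1 : G), i)} := by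
  have h1 := keep_degree (Subgroup.closure (Set.range fun _ : Unit => c)) s hs C hC N
    (fun _ : Unit => c) (fun _ => Set.univ) (fun _ => MeasurableSet.univ) (by
      intro x a b hab
      exact conn_cyclic c s _ a b hab)
  simp only [Finset.univ_unique, Finset.sum_singleton, probReal_univ] at h1
  exact h1

/-! ### Finite subgroups -/

/-- The measurable sets of the star graph. -/
def starB {G : Type} [Group G] (H : Subgroup G) (n : ℕ) (h : H) : Set (G → Fin (n + 1)) :=
  {x | h ≠ 1 ∧ (Top H x 1 h ∨ Tie H x 1)}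

theorem meas_top {G : Type} [Group G] (H : Subgroup G) [Finite H] (n : ℕ) (g : G) (h : H) :
    MeasurableSet {x : G → Fin (n + 1) | Top H x g h} := by
  have h1 : {x : G → Fin (n + 1) | Top H x g h} =
      ⋂ z : H, {x : G → Fin (n + 1) | z ≠ h → x (g * z) < x (g * h)} := by
    ext x
    simp only [Top, Set.mem_setOf_eq, Set.mem_iInter]
  rw [h1]
  refine MeasurableSet.iInter fun z => ?_
  by_cases hz : z = h
  · have : {x : G → Fin (n + 1) | z ≠ h → x (g * z) < x (g * h)} = Set.univ := by
      ext x; simp [hz]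
    rw [this]
    exact MeasurableSet.univ
  · have : {x : G → Fin (n + 1) | z ≠ h → x (g * z) < x (g * h)} =
        {x : G → Fin (n + 1) | x (g * z) < x (g * h)} := by
      ext x; simp [hz]
    rw [this]
    have hm : Measurable (fun x : G → Fin (n + 1) => (x (g * z), x (g * h))) :=
      (measurable_pi_apply (g * (z : G))).prodMk (measurable_pi_apply (g * (h : G)))
    exact hm (Set.toFinite {p : Fin (n + 1) × Fin (n + 1) | p.1 < p.2}).measurableSet

theorem meas_tie {G : Type} [Group G] (H : Subgroup G) [Finite H] (n : ℕ) (g : G) :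
    MeasurableSet {x : G → Fin (n + 1) | Tie H x g} := by
  have h1 : {x : G → Fin (n + 1) | Tie H x g} =
      ⋃ z : H, ⋃ z' : H, {x : G → Fin (n + 1) | x (g * z) = x (g * z') ∧ z ≠ z'} := by
    ext x
    simp only [Tie, Set.mem_setOf_eq, Set.mem_iUnion, not_forall, exists_prop, ne_eq]
  rw [h1]
  refine MeasurableSet.iUnion fun z => MeasurableSet.iUnion fun z' => ?_
  have hm : Measurable (fun x : G → Fin (n + 1) => (x (g * z), x (g * z'))) :=
    (measurable_pi_apply (g * (z : G))).prodMk (measurable_pi_apply (g * (z' : G)))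
  exact hm (Set.toFinite {p : Fin (n + 1) × Fin (n + 1) | p.1 = p.2 ∧ z ≠ z'}).measurableSet

theorem prob_tie {G : Type} [Group G] (H : Subgroup G) [Fintype H] (n : ℕ) :
    (mu (Fin (n + 1)) G).real {x | Tie H x 1} ≤ (Fintype.card H : ℝ) ^ 2 / (n + 1) := by
  classical
  have h1 : {x : G → Fin (n + 1) | Tie H x 1} ⊆
      ⋃ p ∈ (Finset.univ : Finset (H × H)).filter (fun p => p.1 ≠ p.2),
        {x : G → Fin (n + 1) | x (p.1 : G) = x (p.2 : G)} := by
    intro x hx
    simp only [Tie, Set.mem_setOf_eq, not_forall, one_mul] at hx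
    obtain ⟨z, z', h2, h3⟩ := hx
    simp only [Set.mem_iUnion]
    exact ⟨(z, z'), by simpa using h3, h2⟩
  refine (measureReal_mono h1 (measure_ne_top _ _)).trans
    ((measureReal_biUnion_finset_le _ _).trans ?_)
  have h2 : ∀ p ∈ (Finset.univ : Finset (H × H)).filter (fun p => p.1 ≠ p.2),
      (mu (Fin (n + 1)) G).real {x : G → Fin (n + 1) | x (p.1 : G) = x (p.2 : G)} ≤
        1 / (n + 1) := by
    intro p hp
    exact prob_eq n _ _ fun h => (Finset.mem_filter.1 hp).2 (Subtype.ext h)
  refine (Finset.sum_le_sum h2).trans ?_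
  rw [Finset.sum_const, nsmul_eq_mul]
  have h3 : (((Finset.univ : Finset (H × H)).filter (fun p => p.1 ≠ p.2)).card : ℝ) ≤
      (Fintype.card H : ℝ) ^ 2 := by
    have h4 := Finset.card_filter_le (Finset.univ : Finset (H × H)) (fun p => p.1 ≠ p.2)
    rw [Finset.card_univ, Fintype.card_prod] at h4
    rw [pow_two]
    exact_mod_cast h4
  have h5 : (0 : ℝ) < n + 1 := by positivity
  rw [mul_one_div]
  exact div_le_div_of_nonneg_right h3 h5.le

theorem prob_top {G : Type} [Group G] (H : Subgroup G) [Fintype H] (n : ℕ) (h : H) :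
    (mu (Fin (n + 1)) G).real {x | Top H x 1 h} ≤ 1 / Fintype.card H := by
  classical
  -- all these probabilities are equal
  have h1 : ∀ z : H, (mu (Fin (n + 1)) G).real {x | Top H x 1 z} =
      (mu (Fin (n + 1)) G).real {x | Top H x 1 h} := by
    intro z
    have h2 : {x : G → Fin (n + 1) | Top H x 1 z} =
        (shift (((h * z⁻¹ : H) : G)) : (G → Fin (n + 1)) → (G → Fin (n + 1))) ⁻¹'
          {x | Top H x 1 h} := by
      ext x
      simp only [Top, Set.mem_setOf_eq, Set.mem_preimage, shift, one_mul]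
      have e1 : ∀ w : H, (((h * z⁻¹ : H) : G))⁻¹ * (w : G) = ((z * h⁻¹ * w : H) : G) := by
        intro w
        simp only [Subgroup.coe_mul, Subgroup.coe_inv]
        group
      simp only [e1]
      have e2 : z * h⁻¹ * h = z := by group
      rw [e2]
      constructor
      · intro hx w hw
        refine hx _ fun h3 => hw ?_
        have h4 : z * h⁻¹ * w = z * h⁻¹ * h := by rw [h3, e2]
        exact mul_left_cancel h4
      · intro hx w hw
        have h3 := hx (h * z⁻¹ * w) (fun h4 => hw (by
          have h5 : z * h⁻¹ * (h * z⁻¹ * w) = z * h⁻¹ * h := by rw [h4]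
          rw [e2] at h5
          have h6 : z * h⁻¹ * (h * z⁻¹ * w) = w := by group
          rw [← h6, h5]))
        have h6 : z * h⁻¹ * (h * z⁻¹ * w) = w := by group
        rw [h6] at h3
        exact h3
    rw [h2, measureReal_def, measureReal_def,
      (mu_shift (E := Fin (n + 1)) ((h * z⁻¹ : H) : G)).measure_preimage
        (meas_top H n 1 h).nullMeasurableSet]
  have h2 : ∑ z : H, (mu (Fin (n + 1)) G).real {x | Top H x 1 z} ≤ 1 := by
    rw [← measureReal_biUnion_finset]
    · exact measureReal_le_one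
    · intro z _ z' _ hzz
      rw [Function.onFun, Set.disjoint_left]
      intro x hx hx'
      exact lt_asymm (hx z' (Ne.symm hzz)) (hx' z hzz)
    · intro z _
      exact meas_top H n 1 z
  rw [Finset.sum_congr rfl fun z _ => h1 z, Finset.sum_const, Finset.card_univ,
    nsmul_eq_mul] at h2
  have hm : (0 : ℝ) < Fintype.card H := by exact_mod_cast Fintype.card_pos
  rw [le_div_iff₀ hm]
  linarith

theorem starB_sum {G : Type} [Group G] (H : Subgroup G) [Fintype H] (n : ℕ) :
    ∑ h : H, (mu (Fin (n + 1)) G).real (starB H n h) ≤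
      1 - 1 / Fintype.card H + (Fintype.card H : ℝ) ^ 3 / (n + 1) := by
  classical
  have hm : (0 : ℝ) < Fintype.card H := by exact_mod_cast Fintype.card_pos
  have h1 : ∀ h : H, (mu (Fin (n + 1)) G).real (starB H n h) ≤
      (if h = 1 then 0 else 1 / (Fintype.card H : ℝ)) + (Fintype.card H : ℝ) ^ 2 / (n + 1) := by
    intro h
    by_cases hh : h = 1
    · have h2 : starB H n h = ∅ := by
        ext x
        simp [starB, hh]
      rw [h2, measureReal_empty, if_pos hh]
      positivity
    · rw [if_neg hh]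
      have h2 : starB H n h ⊆ {x : G → Fin (n + 1) | Top H x 1 h} ∪
          {x : G → Fin (n + 1) | Tie H x 1} := by
        rintro x ⟨-, hx⟩
        exact hx
      exact (measureReal_mono h2 (measure_ne_top _ _)).trans ((measureReal_union_le _ _).trans
        (add_le_add (prob_top H n h) (prob_tie H n)))
  refine (Finset.sum_le_sum fun h _ => h1 h).trans ?_
  rw [Finset.sum_add_distrib, Finset.sum_const, Finset.card_univ, nsmul_eq_mul]
  have h2 : ∑ h : H, (if h = 1 then (0 : ℝ) else 1 / (Fintype.card H : ℝ)) =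
      1 - 1 / Fintype.card H := by
    have h3 : ∀ h : H, (if h = 1 then (0 : ℝ) else 1 / (Fintype.card H : ℝ)) =
        1 / (Fintype.card H : ℝ) - if h = 1 then 1 / (Fintype.card H : ℝ) else 0 := by
      intro h
      split_ifs <;> simp
    rw [Finset.sum_congr rfl fun h _ => h3 h, Finset.sum_sub_distrib, Finset.sum_const,
      Finset.card_univ, nsmul_eq_mul, Finset.sum_ite_eq' Finset.univ (1 : H)]
    rw [if_pos (Finset.mem_univ _)]
    field_simp
  rw [h2]
  have h4 : (Fintype.card H : ℝ) * ((Fintype.card H : ℝ) ^ 2 / (n + 1)) =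
      (Fintype.card H : ℝ) ^ 3 / (n + 1) := by ring
  rw [h4]

theorem keep_degree_finite [Countable G] (H : Subgroup G) [Fintype H] (s : I → G)
    (hs : Subgroup.closure (Set.range s) = ⊤) (C : ℝ) (hC : BernoulliCostGE G C) (N : ℕ) :
    C - 1 + 1 / Fintype.card H - (Fintype.card H : ℝ) ^ 3 / (N + 1) ≤
      ∑ i, measDist (keepLaw H s N) {((1 : G), i)} {((1 : G), i)} := by
  have h1 := keep_degree H s hs C hC N (fun z : H => (z : G)) (starB H N) (by
      intro h
      have h2 : starB H N h = {x : G → Fin (N + 1) | h ≠ 1} ∩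
          ({x : G → Fin (N + 1) | Top H x 1 h} ∪ {x : G → Fin (N + 1) | Tie H x 1}) := rfl
      rw [h2]
      exact (MeasurableSet.const _).inter ((meas_top H N 1 h).union (meas_tie H N 1))) (by
      intro x a b hab
      have h3 := conn_finite H s {e | Keep H s N x e} x a b hab
      have h4 : starS H x = {e : G × H | shift e.1⁻¹ x ∈ starB H N e.2} := by
        ext ⟨g, h⟩
        have e1 : ∀ z : H, shift g⁻¹ x (1 * (z : G)) = x (g * z) := by
          intro z
          simp [shift]
        simp only [starS, starB, Top, Tie, Set.mem_setOf_eq, e1]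
      rw [← h4]
      exact h3)
  have h2 := starB_sum (G := G) H N
  linarith

end

end Pool.Agent.Helper59.EXR
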