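import Pool.Agent.Helper59.EXR.Cost2

/-!
EXR: groups whose Bernoulli actions have cost greater than one: the limit.
-/

namespace Pool.Agent.Helper59.EXR

open Pool.Agent.Helper59.EX MeasureTheory Filter Topology

theorem countable_of_gen {G I : Type} [Group G] [Finite I] (s : I → G)
    (hs : Subgroup.closure (Set.range s) = ⊤) : Countable G := by
  have hc : Countable (FreeGroup I) := by
    unfold FreeGroup
    infer_instance
  have h1 : Function.Surjective (FreeGroup.lift s) := by
    rw [← MonoidHom.range_eq_top, FreeGroup.range_lift_eq_closure, hs]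
  exact h1.countable

open Classical in
theorem exists_limit {E : Type} (w : ℕ → Finset E → Finset E → ℝ) (hw : ∀ n, IsFinDist (w n)) :
    ∃ v : Finset E → Finset E → ℝ, IsFinDist v ∧ ∀ F A, A ⊆ F →
      Tendsto (fun n => w n F A) (hyperfilter ℕ : Filter ℕ) (𝓝 (v F A)) := by
  have hle : ∀ n F A, A ⊆ F → w n F A ≤ 1 := by
    intro n F A hA
    rw [← (hw n).sum_one F]
    exact Finset.single_le_sum (f := fun A => w n F A)
      (fun B hB => (hw n).nonneg F B (Finset.mem_powerset.1 hB)) (Finset.mem_powerset.2 hA)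
  have h1 : ∀ F A : Finset E, A ⊆ F → ∃ r : ℝ,
      Tendsto (fun n => w n F A) (hyperfilter ℕ : Filter ℕ) (𝓝 r) := by
    intro F A hA
    have h2 : ((hyperfilter ℕ).map (fun n => w n F A) : Filter ℝ) ≤ 𝓟 (Set.Icc (0 : ℝ) 1) := by
      rw [le_principal_iff]
      refine mem_map.2 (Eventually.of_forall fun n => ?_)
      exact ⟨(hw n).nonneg F A hA, hle n F A hA⟩
    obtain ⟨r, -, hr⟩ := isCompact_Icc.ultrafilter_le_nhds _ h2
    exact ⟨r, hr⟩
  choose r hr using h1
  have hv : ∀ (F A : Finset E) (hA : A ⊆ F), Tendsto (fun n => w n F A)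
      (hyperfilter ℕ : Filter ℕ) (𝓝 (if h : A ⊆ F then r F A h else 0)) := by
    intro F A hA
    rw [dif_pos hA]
    exact hr F A hA
  refine ⟨fun F A => if h : A ⊆ F then r F A h else 0, ⟨?_, ?_, ?_⟩, hv⟩
  · intro F A hA
    exact ge_of_tendsto' (hv F A hA) fun n => (hw n).nonneg F A hA
  · intro F
    have h2 : Tendsto (fun n => ∑ A ∈ F.powerset, w n F A) (hyperfilter ℕ : Filter ℕ)
        (𝓝 (∑ A ∈ F.powerset, if h : A ⊆ F then r F A h else 0)) :=
      tendsto_finsetSum _ fun A hA => hv F A (Finset.mem_powerset.1 hA)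
    simp only [(hw _).sum_one F] at h2
    exact tendsto_nhds_unique h2 tendsto_const_nhds
  · intro F F' hF A hA
    have h2 : Tendsto (fun n => ∑ B ∈ F'.powerset with B ∩ F = A, w n F' B)
        (hyperfilter ℕ : Filter ℕ) (𝓝 (∑ B ∈ F'.powerset with B ∩ F = A,
          if h : B ⊆ F' then r F' B h else 0)) :=
      tendsto_finsetSum _ fun B hB =>
        hv F' B (Finset.mem_powerset.1 (Finset.mem_filter.1 hB).1)
    have h3 : (fun n => ∑ B ∈ F'.powerset with B ∩ F = A, w n F' B) = fun n => w n F A := by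
      funext n
      rw [← (hw n).consistent F F' hF A hA]
    rw [h3] at h2
    exact tendsto_nhds_unique h2 (hv F A hA)

open Classical in
/-- A weak limit of the random sets of kept edges. -/
theorem exists_rforest {G I : Type} [Group G] [Countable G] [Fintype I] (H : Subgroup G)
    (s : I → G) : ∃ w : Finset (G × I) → Finset (G × I) → ℝ, IsFinDist w ∧
      (∀ (g : G) (F A : Finset (G × I)), A ⊆ F →
        w (F.image fun e => (g * e.1, e.2)) (A.image fun e => (g * e.1, e.2)) = w F A) ∧
      (∀ F A : Finset (G × I), A ⊆ F → w F A ≠ 0 → IsRForest H s (A : Set (G × I))) ∧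
      ∀ (d : ℕ → ℝ) (δ : ℝ), Tendsto d atTop (𝓝 δ) →
        (∀ N, d N ≤ ∑ i, measDist (keepLaw H s N) {((1 : G), i)} {((1 : G), i)}) →
        δ ≤ ∑ i, w {((1 : G), i)} {((1 : G), i)} := by
  obtain ⟨w, hw, hlim⟩ := exists_limit (fun N => measDist (keepLaw H s N))
    (fun N => measDist_isFinDist _)
  refine ⟨w, hw, ?_, ?_, ?_⟩
  · intro g F A hA
    have h1 := hlim (F.image fun e => (g * e.1, e.2)) (A.image fun e => (g * e.1, e.2))
      (Finset.image_subset_image hA)
    have h2 := hlim F A hA
    have h3 : (fun N => measDist (keepLaw H s N) (F.image fun e => (g * e.1, e.2))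
        (A.image fun e => (g * e.1, e.2))) = fun N => measDist (keepLaw H s N) F A := by
      funext N
      have := measDist_image (keepLaw H s N) (keepLaw_inv H s N) g F A hA
      rw [← this]
    rw [h3] at h1
    exact tendsto_nhds_unique h1 h2
  · intro F A hA hne
    by_contra hfor
    apply hne
    have h1 : Tendsto (fun N : ℕ => (A.card : ℝ) ^ 2 / ((N : ℝ) + 1)) (hyperfilter ℕ : Filter ℕ)
        (𝓝 0) := by
      have h2 : Tendsto (fun N : ℕ => (A.card : ℝ) ^ 2 / ((N : ℝ) + 1)) atTop (𝓝 0) :=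
        tendsto_const_nhds.div_atTop
          (tendsto_atTop_add_const_right _ _ tendsto_natCast_atTop_atTop)
      exact h2.mono_left (Nat.hyperfilter_le_atTop)
    have h3 : ∀ᶠ N in (hyperfilter ℕ : Filter ℕ), measDist (keepLaw H s N) F A ≤
        (A.card : ℝ) ^ 2 / ((N : ℝ) + 1) := by
      have h4 : ∀ᶠ N in (hyperfilter ℕ : Filter ℕ), A.card ≤ N :=
        Nat.hyperfilter_le_atTop (eventually_ge_atTop A.card)
      filter_upwards [h4] with N hN
      exact keep_cycle H s N F A hA hN hfor
    refine le_antisymm (le_of_tendsto_of_tendsto (hlim F A hA) h1 h3) (hw.nonneg F A hA)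
  · intro d δ hd hdN
    have h1 : Tendsto (fun N => ∑ i, measDist (keepLaw H s N) {((1 : G), i)} {((1 : G), i)})
        (hyperfilter ℕ : Filter ℕ) (𝓝 (∑ i, w {((1 : G), i)} {((1 : G), i)})) :=
      tendsto_finsetSum _ fun i _ => hlim _ _ (Finset.Subset.refl _)
    exact le_of_tendsto_of_tendsto' (hd.mono_left Nat.hyperfilter_le_atTop) h1 hdN

/-- Groups with an element of infinite order whose Bernoulli actions have cost greater than
one. -/
theorem crit_cost {G I : Type} [Group G] [Fintype I] (s : I → G)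
    (hs : Subgroup.closure (Set.range s) = ⊤) (c : G) (hc : ¬ IsOfFinOrder c) (C : ℝ)
    (hC1 : 1 < C) (hC : BernoulliCostGE G C) : Crit G := by
  classical
  have hcount : Countable G := countable_of_gen s hs
  set H := Subgroup.closure (Set.range fun _ : Unit => c) with hH
  have hinf : Infinite H := by
    rw [hH, Set.range_const, ← Subgroup.zpowers_eq_closure]
    exact Set.infinite_coe_iff.2 (infinite_zpowers.2 hc)
  obtain ⟨w, hw, hinv, hfor, hlim⟩ := exists_rforest H s
  set d : ℝ := ∑ i, w {((1 : G), i)} {((1 : G), i)} with hd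
  have hd1 : C - 1 ≤ d := hlim (fun _ => C - 1) (C - 1) tendsto_const_nhds
    fun N => keep_degree_cyclic c s hs C hC N
  have hd0 : 0 < d := by linarith
  obtain ⟨m, hm⟩ := exists_nat_gt (4 * (Fintype.card I : ℝ) / d ^ 2)
  let cc : Fin m → G := fun j => (Infinite.natEmbedding H (j : ℕ) : H)
  have hcinj : Function.Injective cc := by
    intro j j' hj
    exact Fin.ext ((Infinite.natEmbedding H).injective (Subtype.ext hj))
  refine crit_of_rforest H cc (fun j => (Infinite.natEmbedding H (j : ℕ)).2) hcinj s w hw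
    (fun g F A hA => by convert hinv g F A hA) hfor ?_
  rw [← hd, Fintype.card_fin]
  have hk : (0 : ℝ) ≤ Fintype.card I := Nat.cast_nonneg _
  have hm0 : (0 : ℝ) < m := lt_of_le_of_lt (by positivity) hm
  have h2 : 4 * (Fintype.card I : ℝ) < m * d ^ 2 := by
    rwa [div_lt_iff₀ (by positivity)] at hm
  have h3 : Real.sqrt (m * Fintype.card I) < m * d / 2 := by
    rw [Real.sqrt_lt' (by positivity)]
    nlinarith
  linarith

/-- Groups with a finite subgroup and Bernoulli actions of large cost. -/
theorem crit_cost_finite {G I : Type} [Group G] [Fintype I] (s : I → G)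
    (hs : Subgroup.closure (Set.range s) = ⊤) (H : Subgroup G) [Finite H] (C : ℝ)
    (hC : BernoulliCostGE G C)
    (h : 2 * Real.sqrt (Nat.card H * Fintype.card I) < Nat.card H * (C - 1) + 1) : Crit G := by
  classical
  have hcount : Countable G := countable_of_gen s hs
  have : Fintype H := Fintype.ofFinite H
  rw [Nat.card_eq_fintype_card] at h
  have hm : (0 : ℝ) < Fintype.card H := by exact_mod_cast Fintype.card_pos
  obtain ⟨w, hw, hinv, hfor, hlim⟩ := exists_rforest H s
  have h1 : C - 1 + 1 / Fintype.card H - 0 ≤ ∑ i, w {((1 : G), i)} {((1 : G), i)} := by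
    refine hlim (fun N => C - 1 + 1 / Fintype.card H - (Fintype.card H : ℝ) ^ 3 / ((N : ℝ) + 1))
      _ ?_ fun N => keep_degree_finite H s hs C hC N
    refine tendsto_const_nhds.sub ?_
    exact tendsto_const_nhds.div_atTop
      (tendsto_atTop_add_const_right _ _ tendsto_natCast_atTop_atTop)
  refine crit_of_rforest H (fun y : H => (y : G)) (fun y => y.2) Subtype.val_injective s w hw
    (fun g F A hA => by convert hinv g F A hA) hfor ?_
  have h4 := mul_le_mul_of_nonneg_left h1 hm.le
  have h5 : (Fintype.card H : ℝ) * (C - 1 + 1 / Fintype.card H - 0) =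
      Fintype.card H * (C - 1) + 1 := by
    field_simp
    ring
  rw [h5] at h4
  exact h.trans_le h4

/-- `C` is at most the first l2-Betti number plus one, or at most the cost of the Bernoulli
actions. -/
def CostOrBettiGE {G I : Type} [Group G] [Fintype I] (s : I → G) (C : ℝ) : Prop :=
  C ≤ 1 + l2Betti s ∨ BernoulliCostGE G C

theorem crit_main {G I : Type} [Group G] [Infinite G] [Fintype I] (s : I → G)
    (hs : Subgroup.closure (Set.range s) = ⊤)
    (h : (∃ C : ℝ, CostOrBettiGE s C ∧ ((1 < C ∧ ∃ c : G, ¬ IsOfFinOrder c) ∨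
        ∃ H : Subgroup G, Finite H ∧
          2 * Real.sqrt (Nat.card H * Fintype.card I) < Nat.card H * (C - 1) + 1)) ∨
      ∃ (J : Type) (_ : Fintype J) (y : J → G), Infinite (Subgroup.closure (Set.range y)) ∧
        l2Betti y < l2Betti s) : Crit G := by
  rcases h with ⟨C, hC | hC, ⟨h1, c, hc⟩ | ⟨H, hH, h1⟩⟩ | ⟨J, _, y, hy, h⟩
  · exact crit_betti s hs (Or.inl ⟨by linarith, c, hc⟩)
  · refine crit_finite s hs H (h1.trans_le ?_)
    have : (0 : ℝ) ≤ Nat.card H := Nat.cast_nonneg _
    nlinarith
  · exact crit_cost s hs c hc C h1 hC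
  · exact crit_cost_finite s hs H C hC h1
  · exact crit_betti s hs (Or.inr (Or.inl ⟨J, inferInstance, y, hy, h⟩))

theorem main_final {G I : Type} [Group G] [Infinite G] [Fintype I] (s : I → G)
    (hs : Subgroup.closure (Set.range s) = ⊤)
    (h : (∃ C : ℝ, CostOrBettiGE s C ∧ ((1 < C ∧ ∃ c : G, ¬ IsOfFinOrder c) ∨
        ∃ H : Subgroup G, Finite H ∧
          2 * Real.sqrt (Nat.card H * Fintype.card I) < Nat.card H * (C - 1) + 1)) ∨
      ∃ (J : Type) (_ : Fintype J) (y : J → G), Infinite (Subgroup.closure (Set.range y)) ∧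
        l2Betti y < l2Betti s)
    (Γ : Type) [Group Γ] (hΓ : HasSubquotient Γ G) : FullNotExact Γ :=
  ⟨exists_fullCstar Γ, fun A _ u hu => not_exact_of_crit (crit_main s hs h) hΓ A u hu⟩

end Pool.Agent.Helper59.EXR
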