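import Pool.Agent.Helper59.EXR.Ker

/-!
EXR: the trace property and comparison of dimensions.
-/

open scoped InnerProductSpace ComplexOrder

namespace Pool.Agent.Helper59.EXR

open Pool.Agent.Helper59.EX

section

variable {G I J : Type} [Group G]

/-- The shift of square summable functions on the edges. -/
noncomputable def sh (g : G) : L2 (G × I) →L[ℂ] L2 (G × I) := permOp (RK_perm g⁻¹)

theorem sh_apply (g : G) (f : L2 (G × I)) (x : G) (i : I) : sh g f (x, i) = f (g⁻¹ * x, i) := rfl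

theorem sh_delta (g x : G) (i : I) : sh g (delta (x, i) : L2 (G × I)) = delta (g * x, i) := by
  unfold sh
  rw [← RK_perm_inv, RK_permOp_delta]
  rfl

theorem sh_inner (g : G) (f f' : L2 (G × I)) : ⟪sh g f, f'⟫_ℂ = ⟪f, sh g⁻¹ f'⟫_ℂ := by
  unfold sh
  rw [RK_permOp_inner, RK_perm_inv]

theorem sh_inv (g : G) (f : L2 (G × I)) : sh g (sh g⁻¹ f) = f := by
  ext ⟨x, i⟩
  rw [sh_apply, sh_apply]
  simp

theorem sh_inv' (g : G) (f : L2 (G × I)) : sh g⁻¹ (sh g f) = f := by
  ext ⟨x, i⟩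
  rw [sh_apply, sh_apply]
  simp

/-- Equivariant operators. -/
def Eqv (S : L2 (G × I) →L[ℂ] L2 (G × J)) : Prop := ∀ g f, S (sh g f) = sh g (S f)

theorem Eqv.adjoint {S : L2 (G × I) →L[ℂ] L2 (G × J)} (hS : Eqv S) :
    Eqv (ContinuousLinearMap.adjoint S) := by
  intro g f
  refine ext_inner_left ℂ fun v => ?_
  rw [ContinuousLinearMap.adjoint_inner_right, ← inner_conj_symm, sh_inner, inner_conj_symm,
    ← hS, ← ContinuousLinearMap.adjoint_inner_right, ← inner_conj_symm, ← inner_conj_symm v]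
  rw [← sh_inner]

theorem Eqv.comp {K : Type} {S : L2 (G × I) →L[ℂ] L2 (G × J)} {T : L2 (G × J) →L[ℂ] L2 (G × K)}
    (hT : Eqv T) (hS : Eqv S) : Eqv (T ∘L S) := by
  intro g f
  show T (S (sh g f)) = sh g (T (S f))
  rw [hS, hT]

theorem hasSum_fin {f : G × J → ℂ} {a : ℂ} [Fintype J] (h : HasSum f a) :
    a = ∑ j, ∑' x, f (x, j) := by
  have h1 : HasSum (fun p : J × G => f (p.2, p.1)) a :=
    (Equiv.prodComm J G).hasSum_iff.2 h
  have h2 : HasSum (fun j => ∑' x, f (x, j)) a :=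
    h1.prod_fiberwise fun j => (h1.summable.prod_factor j).hasSum
  exact h2.unique (hasSum_fintype _)

theorem trace_comm [Fintype I] [Fintype J] (S : L2 (G × I) →L[ℂ] L2 (G × J))
    (U : L2 (G × J) →L[ℂ] L2 (G × I)) (hS : Eqv S) (hU : Eqv U) :
    ∑ i, ⟪(delta ((1 : G), i) : L2 (G × I)), U (S (delta ((1 : G), i)))⟫_ℂ =
      ∑ j, ⟪(delta ((1 : G), j) : L2 (G × J)), S (U (delta ((1 : G), j)))⟫_ℂ := by
  -- the common expression
  let Ψ : J → I → G → ℂ := fun j i y =>
    (U (delta ((1 : G), j)) : L2 (G × I)) (y, i) * (S (delta (y, i)) : L2 (G × J)) (1, j)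
  have h1 : ∀ i, ⟪(delta ((1 : G), i) : L2 (G × I)), U (S (delta ((1 : G), i)))⟫_ℂ =
      ∑ j, ∑' y, Ψ j i y := by
    intro i
    rw [← ContinuousLinearMap.adjoint_inner_left]
    have h2 := lp.hasSum_inner (𝕜 := ℂ)
      (ContinuousLinearMap.adjoint U (delta ((1 : G), i) : L2 (G × I)))
      (S (delta ((1 : G), i)) : L2 (G × J))
    rw [hasSum_fin h2]
    refine Finset.sum_congr rfl fun j _ => ?_
    rw [← (Equiv.inv G).tsum_eq]
    refine tsum_congr fun x => ?_
    have e1 : (ContinuousLinearMap.adjoint U (delta ((1 : G), i) : L2 (G × I))) (x⁻¹, j) =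
        star ((U (delta ((1 : G), j)) : L2 (G × I)) (x, i)) := by
      rw [← inner_delta_left, ContinuousLinearMap.adjoint_inner_right, ← inner_conj_symm,
        inner_delta_left]
      have e2 : (delta (x⁻¹, j) : L2 (G × J)) = sh x⁻¹ (delta ((1 : G), j)) := by
        rw [sh_delta, mul_one]
      rw [e2, hU, sh_apply, inv_inv, mul_one]
      rfl
    have e3 : (S (delta ((1 : G), i)) : L2 (G × J)) (x⁻¹, j) =
        (S (delta (x, i)) : L2 (G × J)) (1, j) := by
      have e4 : (delta ((1 : G), i) : L2 (G × I)) = sh x⁻¹ (delta (x, i)) := by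
        rw [sh_delta, inv_mul_cancel]
      rw [e4, hS, sh_apply, inv_inv, mul_inv_cancel]
    show ⟪_, _⟫_ℂ = _
    rw [Equiv.inv_apply, e1, e3]
    simp only [RCLike.inner_apply, RCLike.star_def, RingHomCompTriple.comp_apply, RingHom.id_apply]
    exact mul_comm _ _
  have h3 : ∀ j, ⟪(delta ((1 : G), j) : L2 (G × J)), S (U (delta ((1 : G), j)))⟫_ℂ =
      ∑ i, ∑' y, Ψ j i y := by
    intro j
    rw [← ContinuousLinearMap.adjoint_inner_left]
    have h2 := lp.hasSum_inner (𝕜 := ℂ)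
      (ContinuousLinearMap.adjoint S (delta ((1 : G), j) : L2 (G × J)))
      (U (delta ((1 : G), j)) : L2 (G × I))
    rw [hasSum_fin h2]
    refine Finset.sum_congr rfl fun i _ => ?_
    refine tsum_congr fun x => ?_
    have e1 : (ContinuousLinearMap.adjoint S (delta ((1 : G), j) : L2 (G × J))) (x, i) =
        star ((S (delta (x, i)) : L2 (G × J)) (1, j)) := by
      rw [← inner_delta_left, ContinuousLinearMap.adjoint_inner_right, ← inner_conj_symm,
        inner_delta_left]
      rfl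
    show ⟪_, _⟫_ℂ = _
    rw [e1]
    simp only [RCLike.inner_apply, RCLike.star_def, RingHomCompTriple.comp_apply, RingHom.id_apply]
    rfl
  simp only [h1, h3]
  rw [Finset.sum_comm]

end

end Pool.Agent.Helper59.EXR
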