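import Pool.Agent.Helper59.EXR.Dim

/-!
EXR: comparison of dimensions.
-/

open scoped InnerProductSpace ComplexOrder

namespace Pool.Agent.Helper59.EXR

open Pool.Agent.Helper59.EX

section

variable {G I J : Type} [Group G]

/-- The closure of the range of the adjoint. -/
noncomputable def cor (S : L2 (G × I) →L[ℂ] L2 (G × J)) : Submodule ℂ (L2 (G × I)) :=
  (LinearMap.range (ContinuousLinearMap.adjoint S : L2 (G × J) →ₗ[ℂ] L2 (G × I)))ᗮᗮ

instance cor_hop (S : L2 (G × I) →L[ℂ] L2 (G × J)) : (cor S).HasOrthogonalProjection := by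
  unfold cor
  infer_instance

theorem adj_mem_cor (S : L2 (G × I) →L[ℂ] L2 (G × J)) (a : L2 (G × J)) :
    ContinuousLinearMap.adjoint S a ∈ cor S :=
  Submodule.le_orthogonal_orthogonal _ ⟨a, rfl⟩

theorem cor_approx (S : L2 (G × I) →L[ℂ] L2 (G × J)) (p : L2 (G × I)) (hp : p ∈ cor S)
    (r : ℝ) (hr : 0 < r) : ∃ a, ‖p - ContinuousLinearMap.adjoint S a‖ < r := by
  unfold cor at hp
  rw [Submodule.orthogonal_orthogonal_eq_closure] at hp
  obtain ⟨_, ⟨a, rfl⟩, ha⟩ := Metric.mem_closure_iff.1 hp r hr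
  rw [dist_eq_norm] at ha
  exact ⟨a, ha⟩

theorem mem_cor_orthogonal (S : L2 (G × I) →L[ℂ] L2 (G × J)) (y : L2 (G × I))
    (hy : ∀ x ∈ cor S, ⟪x, y⟫_ℂ = 0) : S y = 0 := by
  refine ext_inner_left ℂ fun a => ?_
  rw [← ContinuousLinearMap.adjoint_inner_left, hy _ (adj_mem_cor S a), inner_zero_right]

/-- The resolvent. -/
theorem exists_res (S : L2 (G × I) →L[ℂ] L2 (G × J)) (hS : Eqv S) (ε : ℝ) (hε : 0 < ε) :
    ∃ R : L2 (G × J) →L[ℂ] L2 (G × J), Eqv R ∧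
      ∀ v, S (ContinuousLinearMap.adjoint S (R v)) + (ε : ℂ) • R v = v := by
  set A : L2 (G × J) →L[ℂ] L2 (G × J) := S ∘L ContinuousLinearMap.adjoint S with hA
  have hu : IsUnit (A + (ε : ℂ) • (1 : L2 (G × J) →L[ℂ] L2 (G × J))) := by
    refine ContinuousLinearMap.isUnit_of_forall_le_norm_inner_map _ (c := ⟨ε, hε.le⟩) hε
      fun x => ?_
    refine le_trans ?_ (Complex.re_le_norm _)
    have e0 : ⟪(A + (ε : ℂ) • (1 : L2 (G × J) →L[ℂ] L2 (G × J))) x, x⟫_ℂ =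
        ((‖ContinuousLinearMap.adjoint S x‖ ^ 2 + ε * ‖x‖ ^ 2 : ℝ) : ℂ) := by
      have e1 : (A + (ε : ℂ) • (1 : L2 (G × J) →L[ℂ] L2 (G × J))) x =
          S (ContinuousLinearMap.adjoint S x) + (ε : ℂ) • x := rfl
      rw [e1, inner_add_left, inner_smul_left, ← ContinuousLinearMap.adjoint_inner_right,
        inner_self_eq_norm_sq_to_K, inner_self_eq_norm_sq_to_K, Complex.conj_ofReal]
      push_cast
      rfl
    rw [e0, Complex.ofReal_re]
    have : (0 : ℝ) ≤ ‖ContinuousLinearMap.adjoint S x‖ ^ 2 := sq_nonneg _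
    show ‖x‖ ^ 2 * ε ≤ _
    linarith
  obtain ⟨T, hT⟩ := hu
  have h1 : ∀ v, (A + (ε : ℂ) • (1 : L2 (G × J) →L[ℂ] L2 (G × J)))
      ((↑T⁻¹ : L2 (G × J) →L[ℂ] L2 (G × J)) v) = v := by
    intro v
    have h1 : ((T : L2 (G × J) →L[ℂ] L2 (G × J)) * (↑T⁻¹ : L2 (G × J) →L[ℂ] L2 (G × J))) v = v := by
      rw [Units.mul_inv]; rfl
    rw [hT] at h1
    exact h1
  have h2 : ∀ v, (↑T⁻¹ : L2 (G × J) →L[ℂ] L2 (G × J))
      ((A + (ε : ℂ) • (1 : L2 (G × J) →L[ℂ] L2 (G × J))) v) = v := by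
    intro v
    have h1 : ((↑T⁻¹ : L2 (G × J) →L[ℂ] L2 (G × J)) * (T : L2 (G × J) →L[ℂ] L2 (G × J))) v = v := by
      rw [Units.inv_mul]; rfl
    rw [hT] at h1
    exact h1
  refine ⟨(↑T⁻¹ : L2 (G × J) →L[ℂ] L2 (G × J)), ?_, h1⟩
  intro g f
  have h3 : (A + (ε : ℂ) • (1 : L2 (G × J) →L[ℂ] L2 (G × J)))
      (sh g ((↑T⁻¹ : L2 (G × J) →L[ℂ] L2 (G × J)) f)) = sh g f := by
    have e1 : ∀ x, (A + (ε : ℂ) • (1 : L2 (G × J) →L[ℂ] L2 (G × J))) (sh g x) =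
        sh g ((A + (ε : ℂ) • (1 : L2 (G × J) →L[ℂ] L2 (G × J))) x) := by
      intro x
      show S (ContinuousLinearMap.adjoint S (sh g x)) + (ε : ℂ) • sh g x =
        sh g (S (ContinuousLinearMap.adjoint S x) + (ε : ℂ) • x)
      rw [hS.adjoint, hS, map_add, map_smul]
    rw [e1, h1]
  rw [← h3, h2]

/-- First inequality. -/
theorem dim_ineq1 (S : L2 (G × I) →L[ℂ] L2 (G × J)) (ε : ℝ) (hε : 0 < ε)
    (R : L2 (G × J) →L[ℂ] L2 (G × J))
    (hR : ∀ v, S (ContinuousLinearMap.adjoint S (R v)) + (ε : ℂ) • R v = v)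
    (x : L2 (G × I)) (a : L2 (G × J)) :
    ‖(cor S).starProjection x‖ ^ 2 -
      ‖(cor S).starProjection x - ContinuousLinearMap.adjoint S a‖ ^ 2 - ε * ‖a‖ ^ 2 ≤
      (⟪x, ContinuousLinearMap.adjoint S (R (S x))⟫_ℂ).re := by
  set p := (cor S).starProjection x with hp
  set u := R (S x) with hu
  set b := ContinuousLinearMap.adjoint S a with hb
  have hSx : S x = S (ContinuousLinearMap.adjoint S u) + (ε : ℂ) • u := (hR (S x)).symm
  have e1 : (⟪x, ContinuousLinearMap.adjoint S u⟫_ℂ).re =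
      ‖ContinuousLinearMap.adjoint S u‖ ^ 2 + ε * ‖u‖ ^ 2 := by
    rw [ContinuousLinearMap.adjoint_inner_right, hSx, inner_add_left, inner_smul_left,
      ← ContinuousLinearMap.adjoint_inner_right, inner_self_eq_norm_sq_to_K,
      inner_self_eq_norm_sq_to_K, Complex.conj_ofReal]
    show (((‖ContinuousLinearMap.adjoint S u‖ : ℝ) : ℂ) ^ 2 + (ε : ℂ) * ((‖u‖ : ℝ) : ℂ) ^ 2).re = _
    norm_cast
  have e2 : (⟪x, b⟫_ℂ).re =
      (⟪ContinuousLinearMap.adjoint S u, b⟫_ℂ).re + ε * (⟪u, a⟫_ℂ).re := by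
    rw [hb, ContinuousLinearMap.adjoint_inner_right, hSx, inner_add_left, inner_smul_left,
      ← ContinuousLinearMap.adjoint_inner_right, Complex.conj_ofReal, Complex.add_re,
      Complex.re_ofReal_mul]
  have e3 : (⟪p, b⟫_ℂ).re = (⟪x, b⟫_ℂ).re := by
    rw [hp, Submodule.inner_starProjection_left_eq_right,
      Submodule.starProjection_eq_self_iff.2 (adj_mem_cor S a)]
  have e4 : ‖p - b‖ ^ 2 = ‖p‖ ^ 2 - 2 * (⟪p, b⟫_ℂ).re + ‖b‖ ^ 2 := by
    have := norm_sub_sq (𝕜 := ℂ) p b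
    exact this
  have e5 : ‖ContinuousLinearMap.adjoint S u - b‖ ^ 2 = ‖ContinuousLinearMap.adjoint S u‖ ^ 2 -
      2 * (⟪ContinuousLinearMap.adjoint S u, b⟫_ℂ).re + ‖b‖ ^ 2 :=
    norm_sub_sq (𝕜 := ℂ) _ _
  have e6 : ‖u - a‖ ^ 2 = ‖u‖ ^ 2 - 2 * (⟪u, a⟫_ℂ).re + ‖a‖ ^ 2 :=
    norm_sub_sq (𝕜 := ℂ) _ _
  have e7 : 0 ≤ ‖ContinuousLinearMap.adjoint S u - b‖ ^ 2 := sq_nonneg _
  have e8 : 0 ≤ ε * ‖u - a‖ ^ 2 := by positivity
  rw [e1]
  rw [e6] at e8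
  nlinarith

/-- Second inequality. -/
theorem dim_ineq2 (S : L2 (G × I) →L[ℂ] L2 (G × J)) (ε : ℝ) (hε : 0 < ε)
    (R : L2 (G × J) →L[ℂ] L2 (G × J))
    (hR : ∀ v, S (ContinuousLinearMap.adjoint S (R v)) + (ε : ℂ) • R v = v)
    (K : Submodule ℂ (L2 (G × J))) [K.HasOrthogonalProjection] (hK : ∀ x, S x ∈ K)
    (v : L2 (G × J)) :
    (⟪v, S (ContinuousLinearMap.adjoint S (R v))⟫_ℂ).re ≤ ‖K.starProjection v‖ ^ 2 := by
  set u := R v with hu
  set u' := K.starProjection u with hu'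
  set w := S (ContinuousLinearMap.adjoint S u) with hw
  have h1 : ContinuousLinearMap.adjoint S u' = ContinuousLinearMap.adjoint S u := by
    refine ext_inner_left ℂ fun y => ?_
    rw [ContinuousLinearMap.adjoint_inner_right, ContinuousLinearMap.adjoint_inner_right, hu',
      ← Submodule.inner_starProjection_left_eq_right,
      Submodule.starProjection_eq_self_iff.2 (hK y)]
  have h2 : K.starProjection v = w + (ε : ℂ) • u' := by
    conv_lhs => rw [← hR v]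
    rw [map_add, map_smul, Submodule.starProjection_eq_self_iff.2 (hK _)]
  have h3 : ⟪v, w⟫_ℂ = ⟪w + (ε : ℂ) • u', w⟫_ℂ := by
    rw [← h2, Submodule.inner_starProjection_left_eq_right,
      Submodule.starProjection_eq_self_iff.2 (hK _)]
  have h4 : ⟪u', w⟫_ℂ = ((‖ContinuousLinearMap.adjoint S u‖ ^ 2 : ℝ) : ℂ) := by
    rw [hw, ← ContinuousLinearMap.adjoint_inner_left, h1, inner_self_eq_norm_sq_to_K]
    push_cast
    rfl
  have h5 : (⟪v, w⟫_ℂ).re = ‖w‖ ^ 2 + ε * ‖ContinuousLinearMap.adjoint S u‖ ^ 2 := by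
    rw [h3, inner_add_left, inner_smul_left, h4, inner_self_eq_norm_sq_to_K, Complex.conj_ofReal]
    show (((‖w‖ : ℝ) : ℂ) ^ 2 + (ε : ℂ) * ((‖ContinuousLinearMap.adjoint S u‖ ^ 2 : ℝ) : ℂ)).re = _
    norm_cast
  have h6 : (⟪w, u'⟫_ℂ).re = ‖ContinuousLinearMap.adjoint S u‖ ^ 2 := by
    rw [← inner_conj_symm, h4, Complex.conj_ofReal, Complex.ofReal_re]
  have h7 : ‖K.starProjection v‖ ^ 2 =
      ‖w‖ ^ 2 + 2 * (ε * ‖ContinuousLinearMap.adjoint S u‖ ^ 2) + ε ^ 2 * ‖u'‖ ^ 2 := by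
    rw [h2]
    have h8 := norm_add_sq (𝕜 := ℂ) w ((ε : ℂ) • u')
    rw [h8, inner_smul_right, norm_smul, Complex.norm_of_nonneg hε.le]
    have h9 : RCLike.re ((ε : ℂ) * ⟪w, u'⟫_ℂ) = ε * ‖ContinuousLinearMap.adjoint S u‖ ^ 2 := by
      rw [← h6]
      exact Complex.re_ofReal_mul _ _
    rw [h9]
    ring
  rw [h5, h7]
  nlinarith [mul_nonneg hε.le (sq_nonneg ‖ContinuousLinearMap.adjoint S u‖),
    mul_nonneg (sq_nonneg ε) (sq_nonneg ‖u'‖)]

theorem dim_le [Fintype I] [Fintype J] (S : L2 (G × I) →L[ℂ] L2 (G × J)) (hS : Eqv S)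
    (K : Submodule ℂ (L2 (G × J))) [K.HasOrthogonalProjection] (hK : ∀ x, S x ∈ K) :
    ∑ i, ‖(cor S).starProjection (delta ((1 : G), i))‖ ^ 2 ≤
      ∑ j, ‖K.starProjection (delta ((1 : G), j))‖ ^ 2 := by
  refine le_of_forall_pos_le_add fun η hη => ?_
  -- approximation
  set r : ℝ := Real.sqrt (η / (2 * (Fintype.card I + 1))) with hr
  have hr0 : 0 < r := Real.sqrt_pos.2 (by positivity)
  have hr2 : r ^ 2 = η / (2 * (Fintype.card I + 1)) := Real.sq_sqrt (by positivity)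
  choose a ha using fun i : I => cor_approx S ((cor S).starProjection (delta ((1 : G), i)))
    (Submodule.starProjection_apply_mem _ _) r hr0
  set ε : ℝ := η / (2 * (∑ i, ‖a i‖ ^ 2 + 1)) with hε
  have hsum0 : 0 ≤ ∑ i, ‖a i‖ ^ 2 := Finset.sum_nonneg fun i _ => sq_nonneg _
  have hε0 : 0 < ε := by positivity
  obtain ⟨R, hRe, hR⟩ := exists_res S hS ε hε0
  have h1 : ∀ i, ‖(cor S).starProjection (delta ((1 : G), i))‖ ^ 2 - r ^ 2 - ε * ‖a i‖ ^ 2 ≤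
      (⟪(delta ((1 : G), i) : L2 (G × I)),
        ContinuousLinearMap.adjoint S (R (S (delta ((1 : G), i))))⟫_ℂ).re := by
    intro i
    refine le_trans ?_ (dim_ineq1 S ε hε0 R hR _ (a i))
    have h2 : ‖(cor S).starProjection (delta ((1 : G), i)) -
        ContinuousLinearMap.adjoint S (a i)‖ ^ 2 ≤ r ^ 2 :=
      pow_le_pow_left₀ (norm_nonneg _) (ha i).le 2
    linarith
  have h3 := trace_comm S (ContinuousLinearMap.adjoint S ∘L R) hS (hS.adjoint.comp hRe)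
  have h4 : ∑ i, (⟪(delta ((1 : G), i) : L2 (G × I)),
        ContinuousLinearMap.adjoint S (R (S (delta ((1 : G), i))))⟫_ℂ).re =
      ∑ j, (⟪(delta ((1 : G), j) : L2 (G × J)),
        S (ContinuousLinearMap.adjoint S (R (delta ((1 : G), j))))⟫_ℂ).re := by
    rw [← Complex.re_sum, ← Complex.re_sum]
    exact congrArg Complex.re h3
  have h5 : ∑ j, (⟪(delta ((1 : G), j) : L2 (G × J)),
        S (ContinuousLinearMap.adjoint S (R (delta ((1 : G), j))))⟫_ℂ).re ≤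
      ∑ j, ‖K.starProjection (delta ((1 : G), j))‖ ^ 2 :=
    Finset.sum_le_sum fun j _ => dim_ineq2 S ε hε0 R hR K hK _
  have h6 := Finset.sum_le_sum fun i (_ : i ∈ Finset.univ) => h1 i
  rw [Finset.sum_sub_distrib, Finset.sum_sub_distrib, Finset.sum_const, Finset.card_univ,
    ← Finset.mul_sum, nsmul_eq_mul, h4] at h6
  have h7 : (Fintype.card I : ℝ) * r ^ 2 ≤ η / 2 := by
    rw [hr2]
    have h8 : (0 : ℝ) ≤ Fintype.card I := Nat.cast_nonneg _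
    rw [mul_div_assoc', div_le_div_iff₀ (by positivity) (by norm_num)]
    nlinarith
  have h9 : ε * ∑ i, ‖a i‖ ^ 2 ≤ η / 2 := by
    rw [hε, div_mul_eq_mul_div, div_le_div_iff₀ (by positivity) (by norm_num)]
    nlinarith
  linarith

end

end Pool.Agent.Helper59.EXR
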