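import Pool.Agent.Helper59.EXR.Walk
import Pool.Agent.Helper59.EX.St.N4

/-!
EXR: pull-back of a distribution along a map; the criterion for relative random forests.
-/

namespace Pool.Agent.Helper59.EXR

open Pool.Agent.Helper59.EX

section

open Classical in
/-- The pull-back of a random set. -/
noncomputable def pull {E E' : Type} (f : E' → E) (w : Finset E → Finset E → ℝ)
    (F A : Finset E') : ℝ :=
  ∑ B ∈ (F.image f).powerset with F.filter (fun e => f e ∈ B) = A, w (F.image f) B

open Classical in
theorem pull_isFinDist {E E' : Type} (f : E' → E) (w : Finset E → Finset E → ℝ)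
    (hw : IsFinDist w) : IsFinDist (pull f w) := by
  refine ⟨?_, ?_, ?_⟩
  · intro F A _
    refine Finset.sum_nonneg fun B hB => hw.nonneg _ _ ?_
    exact Finset.mem_powerset.1 (Finset.mem_filter.1 hB).1
  · intro F
    unfold pull
    rw [Finset.sum_fiberwise_of_maps_to (g := fun B => F.filter (fun e => f e ∈ B))
      (fun B _ => Finset.mem_powerset.2 (Finset.filter_subset _ _))]
    exact hw.sum_one _
  · intro F F' hF A hA
    have h1 : ∑ B ∈ F'.powerset with B ∩ F = A, pull f w F' B =
        ∑ B ∈ (F'.image f).powerset with F.filter (fun e => f e ∈ B) = A,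
          w (F'.image f) B := by
      unfold pull
      simp only [Finset.sum_filter]
      rw [← Finset.sum_filter, Finset.sum_comm]
      refine Finset.sum_congr rfl fun B _ => ?_
      rw [Finset.sum_ite_eq]
      have e1 : F'.filter (fun e => f e ∈ B) ∩ F = F.filter (fun e => f e ∈ B) := by
        ext e
        simp only [Finset.mem_inter, Finset.mem_filter]
        exact ⟨fun h => ⟨h.2, h.1.2⟩, fun h => ⟨⟨hF h.1, h.2⟩, h.1⟩⟩
      have e2 : (F'.filter (fun e => f e ∈ B) ∈ F'.powerset.filter (fun B => B ∩ F = A)) ↔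
          F.filter (fun e => f e ∈ B) = A := by
        rw [Finset.mem_filter, Finset.mem_powerset]
        constructor
        · rintro ⟨_, h⟩
          rw [← h, ← e1]
        · intro h
          refine ⟨Finset.filter_subset _ _, ?_⟩
          rw [← h, ← e1]
      by_cases h : F.filter (fun e => f e ∈ B) = A
      · rw [if_pos h, if_pos (e2.2 h)]
      · rw [if_neg h, if_neg (fun h' => h (e2.1 h'))]
    rw [h1]
    have himg : F.image f ⊆ F'.image f := Finset.image_subset_image hF
    unfold pull
    rw [← Finset.sum_fiberwise_of_maps_to (g := fun B => B ∩ F.image f)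
      (t := (F.image f).powerset.filter (fun B => F.filter (fun e => f e ∈ B) = A))]
    · refine Finset.sum_congr rfl fun B hB => ?_
      rw [Finset.mem_filter, Finset.mem_powerset] at hB
      rw [← hw.consistent _ _ himg B hB.1]
      refine Finset.sum_congr ?_ fun _ _ => rfl
      ext B'
      simp only [Finset.mem_filter, Finset.mem_powerset]
      constructor
      · rintro ⟨⟨h2, _⟩, h3⟩
        refine ⟨h2, ?_⟩
        rw [← h3]
      · rintro ⟨h2, h3⟩
        refine ⟨⟨h2, ?_⟩, h3⟩
        rw [← hB.2, ← h3]
        ext e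
        simp only [Finset.mem_filter, Finset.mem_inter]
        exact ⟨fun h => ⟨h.1, h.2, Finset.mem_image_of_mem _ h.1⟩, fun h => ⟨h.1, h.2.1⟩⟩
    · intro B' hB'
      rw [Finset.mem_filter, Finset.mem_powerset] at hB'
      rw [Finset.mem_filter, Finset.mem_powerset]
      refine ⟨Finset.inter_subset_right, ?_⟩
      rw [← hB'.2]
      ext e
      simp only [Finset.mem_filter, Finset.mem_inter]
      exact ⟨fun h => ⟨h.1, h.2.1⟩, fun h => ⟨h.1, h.2, Finset.mem_image_of_mem _ h.1⟩⟩

open Classical in
theorem pull_shift {E E' : Type} (f : E' → E) (w : Finset E → Finset E → ℝ)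
    (τ : E ≃ E) (τ' : E' ≃ E') (hf : ∀ e, f (τ' e) = τ (f e))
    (hinv : ∀ F A : Finset E, A ⊆ F → w (F.image τ) (A.image τ) = w F A)
    (F A : Finset E') : pull f w (F.image τ') (A.image τ') = pull f w F A := by
  have h1 : (F.image τ').image f = (F.image f).image τ := by
    rw [Finset.image_image, Finset.image_image]
    refine Finset.image_congr fun e _ => ?_
    exact hf e
  unfold pull
  rw [h1]
  symm
  refine Finset.sum_bij (fun B _ => B.image τ) ?_ ?_ ?_ ?_
  · intro B hB
    rw [Finset.mem_filter, Finset.mem_powerset] at hB ⊢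
    refine ⟨Finset.image_subset_image hB.1, ?_⟩
    rw [← hB.2]
    ext e
    simp only [Finset.mem_filter, Finset.mem_image]
    constructor
    · rintro ⟨⟨x, hx, rfl⟩, y, hy, hxy⟩
      rw [hf] at hxy
      have := τ.injective hxy
      exact ⟨x, ⟨hx, this ▸ hy⟩, rfl⟩
    · rintro ⟨x, ⟨hx, hx2⟩, rfl⟩
      exact ⟨⟨x, hx, rfl⟩, f x, hx2, (hf x).symm⟩
  · intro B _ B' _ h
    exact Finset.image_injective τ.injective h
  · intro B hB
    rw [Finset.mem_filter, Finset.mem_powerset] at hB
    obtain ⟨B', hB', rfl⟩ := Finset.subset_image_iff.1 hB.1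
    refine ⟨B', ?_, rfl⟩
    rw [Finset.mem_filter, Finset.mem_powerset]
    refine ⟨hB', ?_⟩
    apply Finset.image_injective τ'.injective
    rw [← hB.2]
    ext e
    simp only [Finset.mem_filter, Finset.mem_image]
    constructor
    · rintro ⟨x, ⟨hx, hx2⟩, rfl⟩
      exact ⟨⟨x, hx, rfl⟩, f x, hx2, (hf x).symm⟩
    · rintro ⟨⟨x, hx, rfl⟩, y, hy, hxy⟩
      rw [hf] at hxy
      have := τ.injective hxy
      exact ⟨x, ⟨hx, this ▸ hy⟩, rfl⟩
  · intro B hB
    rw [Finset.mem_filter, Finset.mem_powerset] at hB
    exact (hinv _ _ hB.1).symm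

open Classical in
theorem pull_ne_zero {E E' : Type} (f : E' → E) (w : Finset E → Finset E → ℝ) (F A : Finset E')
    (h : pull f w F A ≠ 0) : ∃ S B : Finset E, B ⊆ S ∧ w S B ≠ 0 ∧ ∀ e ∈ A, f e ∈ B := by
  unfold pull at h
  obtain ⟨B, hB, hB2⟩ := Finset.exists_ne_zero_of_sum_ne_zero h
  rw [Finset.mem_filter, Finset.mem_powerset] at hB
  refine ⟨_, B, hB.1, hB2, fun e he => ?_⟩
  rw [← hB.2, Finset.mem_filter] at he
  exact he.2

theorem image_inst {α β : Type} (i j : DecidableEq β) (f g : α → β) (h : ∀ a, f a = g a)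
    (S : Finset α) : @Finset.image α β i f S = @Finset.image α β j g S := by
  have h' : f = g := funext h
  subst h'
  rw [Subsingleton.elim i j]

open Classical in
theorem pull_singleton {E E' : Type} (f : E' → E) (w : Finset E → Finset E → ℝ) (e : E') :
    pull f w {e} {e} = w {f e} {f e} := by
  unfold pull
  rw [Finset.image_singleton]
  have h1 : ({f e} : Finset E).powerset.filter
      (fun B => ({e} : Finset E').filter (fun e => f e ∈ B) = {e}) = {{f e}} := by
    ext B
    simp only [Finset.mem_filter, Finset.mem_powerset, Finset.mem_singleton]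
    constructor
    · rintro ⟨h1, h2⟩
      have h3 : e ∈ ({e} : Finset E').filter (fun e => f e ∈ B) := by
        rw [h2]; exact Finset.mem_singleton_self e
      refine Finset.Subset.antisymm h1 ?_
      rw [Finset.singleton_subset_iff]
      exact (Finset.mem_filter.1 h3).2
    · rintro rfl
      refine ⟨Finset.Subset.refl _, ?_⟩
      rw [Finset.filter_true_of_mem]
      intro x hx
      rw [Finset.mem_singleton.1 hx]
      exact Finset.mem_singleton_self _
  rw [h1, Finset.sum_singleton]

end

open Classical in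
/-- The criterion for invariant random relative forests. -/
theorem crit_of_rforest {G I J : Type} [Group G] [Fintype I] [Fintype J] (H : Subgroup G)
    (c : J → G) (hc : ∀ j, c j ∈ H) (hinj : Function.Injective c) (s : I → G)
    (w : Finset (G × I) → Finset (G × I) → ℝ) (hw : IsFinDist w)
    (hinv : ∀ (g : G) (F A : Finset (G × I)), A ⊆ F →
      w (F.image fun e => (g * e.1, e.2)) (A.image fun e => (g * e.1, e.2)) = w F A)
    (hfor : ∀ F A : Finset (G × I), A ⊆ F → w F A ≠ 0 → IsRForest H s (A : Set (G × I)))
    (h : 2 * Real.sqrt (Fintype.card J * Fintype.card I) <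
      Fintype.card J * ∑ i, w {((1 : G), i)} {((1 : G), i)}) : Crit G := by
  refine crit_of_forest (tgen c s) (pull (rproj c) w) (pull_isFinDist _ _ hw) ?_ ?_ ?_
  · intro g F A _
    have h1 := pull_shift (rproj c) w ((Equiv.mulLeft g).prodCongr (Equiv.refl I))
      ((Equiv.mulLeft g).prodCongr (Equiv.refl (J × I))) (by
        rintro ⟨x, j, i⟩
        simp [rproj, mul_assoc]) (by
        intro F A hA
        have h2 := hinv g F A hA
        rw [image_inst _ _ (fun e : G × I => (g * e.1, e.2))
          ((Equiv.mulLeft g).prodCongr (Equiv.refl I)) (fun _ => rfl) F,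
          image_inst _ _ (fun e : G × I => (g * e.1, e.2))
          ((Equiv.mulLeft g).prodCongr (Equiv.refl I)) (fun _ => rfl) A] at h2
        exact h2) F A
    rw [image_inst _ _ (fun e : G × (J × I) => (g * e.1, e.2))
      ((Equiv.mulLeft g).prodCongr (Equiv.refl (J × I))) (fun _ => rfl) F,
      image_inst _ _ (fun e : G × (J × I) => (g * e.1, e.2))
      ((Equiv.mulLeft g).prodCongr (Equiv.refl (J × I))) (fun _ => rfl) A]
    exact h1
  · intro F A _ hne
    obtain ⟨S, B, hB, hB2, hB3⟩ := pull_ne_zero _ _ _ _ hne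
    have h2 := forest_lift H c hc hinj s _ (hfor _ _ hB hB2)
    intro a l hl hin hnd
    exact h2 a l hl (fun e he => hB3 _ (hin e he)) hnd
  · have h1 : ∀ j : J, ∀ i : I, pull (rproj c) w {((1 : G), (j, i))} {((1 : G), (j, i))} =
        w {((1 : G), i)} {((1 : G), i)} := by
      intro j i
      rw [pull_singleton]
      have h2 := hinv (c j) {((1 : G), i)} {((1 : G), i)} (Finset.Subset.refl _)
      rw [← h2]
      simp [rproj]
    rw [Fintype.sum_prod_type]
    simp only [h1, Finset.sum_const, Finset.card_univ, nsmul_eq_mul, Fintype.card_prod,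
      Nat.cast_mul]
    exact h

end Pool.Agent.Helper59.EXR
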