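import Pool.Agent.Helper59.EXR.Upper
import Pool.Agent.Helper59.EXR.Pull
import Pool.Agent.Helper59.EX.ForestFinal
import Pool.Agent.Helper59.EX.St.P1

/-!
EXR: groups with positive first l2-Betti number.
-/

namespace Pool.Agent.Helper59.EXR

open Pool.Agent.Helper59.EX

/-- The criterion for relative cocycles. -/
theorem crit_of_rdim {G I J : Type} [Group G] [Fintype I] [Fintype J] (H : Subgroup G)
    (c : J → G) (hc : ∀ j, c j ∈ H) (hinj : Function.Injective c) (s : I → G)
    (h : 2 * Real.sqrt (Fintype.card J * Fintype.card I) < Fintype.card J *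
      ∑ i, ‖(rCocycles H s).starProjection (delta ((1 : G), i))‖ ^ 2) : Crit G := by
  classical
  have hw : IsFinDist (detWeight (rKer H s)) :=
    detWeight_isFinDist _ (rKer_posSemidef H s)
      (fun F => by convert one_sub_rKer_posSemidef H s F)
  refine crit_of_rforest H c hc hinj s (detWeight (rKer H s)) hw ?_ ?_ ?_
  · intro g F A _
    exact detWeight_image (rKer H s) g (rKer_shift H s g) F A
  · intro F A hA hne
    by_contra hc
    obtain ⟨c, hc1, hc2⟩ := rKer_cycle H s A hc
    exact hne (detWeight_eq_zero _ hw F A hA c hc1 hc2)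
  · refine h.trans_le (le_of_eq ?_)
    congr 1
    refine Finset.sum_congr rfl fun i _ => ?_
    rw [detWeight_singleton, rKer_diag]

theorem cocycleDim_ge {G I : Type} [Group G] [Infinite G] [Fintype I] (s : I → G)
    (hs : Subgroup.closure (Set.range s) = ⊤) : 1 + l2Betti s ≤ l2CocycleDim s := by
  have h1 := one_le_dim_l2Cobound s hs
  have h2 : l2CocycleDim s = (∑ i, ‖(l2Cobound s).starProjection (delta ((1 : G), i))‖ ^ 2) +
      l2Betti s := by
    unfold l2CocycleDim l2Betti
    rw [← Finset.sum_add_distrib]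
    exact Finset.sum_congr rfl fun i _ => norm_sq_proj_cocycles s _
  linarith

/-- Finite subgroups. -/
theorem crit_finite {G I : Type} [Group G] [Infinite G] [Fintype I] (s : I → G)
    (hs : Subgroup.closure (Set.range s) = ⊤) (H : Subgroup G) [Finite H]
    (h : 2 * Real.sqrt (Nat.card H * Fintype.card I) < Nat.card H * l2Betti s + 1) : Crit G := by
  classical
  have : Fintype H := Fintype.ofFinite H
  rw [Nat.card_eq_fintype_card] at h
  have hm : (0 : ℝ) < Fintype.card H := by exact_mod_cast Fintype.card_pos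
  refine crit_of_rdim H (fun y : H => (y : G)) (fun y => y.2) Subtype.val_injective s ?_
  have h1 := rel_lower_fin s hs H
  have h2 := cocycleDim_ge s hs
  have h3 : l2Betti s + 1 / Fintype.card H ≤
      ∑ i, ‖(rCocycles H s).starProjection (delta ((1 : G), i))‖ ^ 2 := by linarith
  have h4 := mul_le_mul_of_nonneg_left h3 hm.le
  have h5 : (Fintype.card H : ℝ) * (l2Betti s + 1 / Fintype.card H) =
      Fintype.card H * l2Betti s + 1 := by
    field_simp
  rw [h5] at h4
  exact h.trans_le h4

/-- Infinite subgroups. -/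
theorem crit_infinite {G I J : Type} [Group G] [Infinite G] [Fintype I] [Fintype J] (s : I → G)
    (hs : Subgroup.closure (Set.range s) = ⊤) (y : J → G)
    [hinf : Infinite (Subgroup.closure (Set.range y))] (h : l2CocycleDim y < 1 + l2Betti s) :
    Crit G := by
  set H := Subgroup.closure (Set.range y) with hH
  set d : ℝ := ∑ i, ‖(rCocycles H s).starProjection (delta ((1 : G), i))‖ ^ 2 with hd
  have h1 : 0 < d := by
    have h2 := rel_lower_fg s hs y
    have h3 := cocycleDim_ge s hs
    rw [← hH] at h2
    rw [hd]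
    linarith
  obtain ⟨m, hm⟩ := exists_nat_gt (4 * (Fintype.card I : ℝ) / d ^ 2)
  let c : Fin m → G := fun j => (Infinite.natEmbedding H (j : ℕ) : H)
  have hcinj : Function.Injective c := by
    intro j j' hj
    exact Fin.ext ((Infinite.natEmbedding H).injective (Subtype.ext hj))
  refine crit_of_rdim H c (fun j => (Infinite.natEmbedding H (j : ℕ)).2) hcinj s ?_
  rw [← hd, Fintype.card_fin]
  have hk : (0 : ℝ) ≤ Fintype.card I := Nat.cast_nonneg _
  have hm0 : (0 : ℝ) < m := lt_of_le_of_lt (by positivity) hm
  have h2 : 4 * (Fintype.card I : ℝ) < m * d ^ 2 := by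
    rwa [div_lt_iff₀ (by positivity)] at hm
  have h3 : Real.sqrt (m * Fintype.card I) < m * d / 2 := by
    rw [Real.sqrt_lt' (by positivity)]
    nlinarith
  linarith

/-- Conditions for nonexactness in terms of the first l2-Betti number. -/
theorem crit_betti {G I : Type} [Group G] [Infinite G] [Fintype I] (s : I → G)
    (hs : Subgroup.closure (Set.range s) = ⊤)
    (h : (0 < l2Betti s ∧ ∃ c : G, ¬ IsOfFinOrder c) ∨
      (∃ (J : Type) (_ : Fintype J) (y : J → G), Infinite (Subgroup.closure (Set.range y)) ∧
        l2Betti y < l2Betti s) ∨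
      (∃ H : Subgroup G, Finite H ∧
        2 * Real.sqrt (Nat.card H * Fintype.card I) < Nat.card H * l2Betti s + 1)) : Crit G := by
  rcases h with ⟨h0, c, hc⟩ | ⟨J, _, y, hy, h⟩ | ⟨H, hH, h⟩
  · have h1 : Infinite (Subgroup.closure (Set.range fun _ : Unit => c)) := by
      rw [Set.range_const, ← Subgroup.zpowers_eq_closure]
      exact Set.infinite_coe_iff.2 (infinite_zpowers.2 hc)
    refine crit_infinite s hs (fun _ : Unit => c) ?_
    have h2 := cocycleDim_le_card (fun _ : Unit => c)
    rw [Fintype.card_unit, Nat.cast_one] at h2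
    linarith
  · refine crit_infinite s hs y ?_
    have h2 := cocycleDim_le y
    linarith
  · exact crit_finite s hs H h

theorem betti_final' {G I : Type} [Group G] [Infinite G] [Fintype I] (s : I → G)
    (hs : Subgroup.closure (Set.range s) = ⊤)
    (h : (0 < l2Betti s ∧ ∃ c : G, ¬ IsOfFinOrder c) ∨
      (∃ (J : Type) (_ : Fintype J) (y : J → G), Infinite (Subgroup.closure (Set.range y)) ∧
        l2Betti y < l2Betti s) ∨
      (∃ H : Subgroup G, Finite H ∧
        2 * Real.sqrt (Nat.card H * Fintype.card I) < Nat.card H * l2Betti s + 1))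
    (Γ : Type) [Group Γ] (hΓ : HasSubquotient Γ G) : FullNotExact Γ :=
  ⟨exists_fullCstar Γ, fun A _ u hu => not_exact_of_crit (crit_betti s hs h) hΓ A u hu⟩

end Pool.Agent.Helper59.EXR
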