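import Pool.Agent.Helper59.EXR.Walk
import Pool.Agent.Helper59.EX.Forest

/-!
EXR: the kernel of the projection onto the relative square summable cocycles.
-/

open scoped InnerProductSpace ComplexOrder

namespace Pool.Agent.Helper59.EXR

open Pool.Agent.Helper59.EX

/-- The closed subspace of the relative square summable 1-cocycles: the square summable functions
on the edges whose signed sum along every closed walk in the quotient graph vanishes. -/
noncomputable def rCocycles {G I : Type} [Group G] (H : Subgroup G) (s : I → G) :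
    Submodule ℂ (L2 (G × I)) :=
  (Submodule.span ℂ {v | ∃ (a : G ⧸ H) (l : List ((G × I) × Bool)), IsRWalk H s a l a ∧
    v = walkVec l})ᗮ

instance rCocycles_hasOrthogonalProjection {G I : Type} [Group G] (H : Subgroup G) (s : I → G) :
    (rCocycles H s).HasOrthogonalProjection := by
  unfold rCocycles
  infer_instance

/-- The kernel of the projection. -/
noncomputable def rKer {G I : Type} [Group G] (H : Subgroup G) (s : I → G) (e f : G × I) : ℂ :=
  ⟪delta e, (rCocycles H s).starProjection (delta f)⟫_ℂ

variable {G I : Type} [Group G]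

omit [Group G] in
theorem RK_starProj_idem (K : Submodule ℂ (L2 (G × I))) [K.HasOrthogonalProjection]
    (x : L2 (G × I)) : K.starProjection (K.starProjection x) = K.starProjection x :=
  Submodule.starProjection_eq_self_iff.2 (Submodule.starProjection_apply_mem K x)

theorem RK_gram (H : Subgroup G) (s : I → G) (e f : G × I) :
    rKer H s e f = ⟪(rCocycles H s).starProjection (delta e),
      (rCocycles H s).starProjection (delta f)⟫_ℂ := by
  unfold rKer
  rw [Submodule.inner_starProjection_left_eq_right, RK_starProj_idem]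

theorem RK_gram' (H : Subgroup G) (s : I → G) (e f : G × I) :
    ⟪(delta e : L2 (G × I)), delta f⟫_ℂ - rKer H s e f =
      ⟪delta e - (rCocycles H s).starProjection (delta e),
      delta f - (rCocycles H s).starProjection (delta f)⟫_ℂ := by
  rw [inner_sub_left, inner_sub_right, inner_sub_right, ← RK_gram H s,
    Submodule.inner_starProjection_left_eq_right]
  unfold rKer
  ring

theorem rKer_posSemidef (H : Subgroup G) (s : I → G) (F : Finset (G × I)) :
    (Matrix.of fun (e f : F) => rKer H s e f).PosSemidef := by
  have hM : (Matrix.of fun (e f : F) => rKer H s e f) =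
      Matrix.gram ℂ (fun e : F => (rCocycles H s).starProjection (delta (e : G × I))) := by
    ext e f
    exact RK_gram H s e f
  rw [hM]
  exact Matrix.posSemidef_gram ℂ _

theorem one_sub_rKer_posSemidef (H : Subgroup G) (s : I → G) (F : Finset (G × I)) :
    (Matrix.of fun (e f : F) => (open Classical in if e = f then (1 : ℂ) else 0) -
      rKer H s e f).PosSemidef := by
  classical
  have hM : (Matrix.of fun (e f : F) => (if e = f then (1 : ℂ) else 0) - rKer H s e f) =
      Matrix.gram ℂ
        (fun e : F => delta (e : G × I) - (rCocycles H s).starProjection (delta (e : G × I))) := by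
    ext e f
    rw [Matrix.gram_apply, ← RK_gram', inner_delta_delta]
    simp only [Matrix.of_apply, Subtype.ext_iff]
  have h0 : (Matrix.of fun (e f : F) => (open Classical in if e = f then (1 : ℂ) else 0) -
      rKer H s e f) = (Matrix.of fun (e f : F) => (if e = f then (1 : ℂ) else 0) -
        rKer H s e f) := by
    ext e f
    simp only [Matrix.of_apply]
  rw [h0, hM]
  exact Matrix.posSemidef_gram ℂ _

/-- The shift of an oriented edge. -/
def RK_sh (g : G) (e : (G × I) × Bool) : (G × I) × Bool := ((g * e.1.1, e.1.2), e.2)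

theorem RK_src_sh (s : I → G) (g : G) (e : (G × I) × Bool) :
    N1_src s (RK_sh g e) = g * N1_src s e := N1_src_tr s g e

theorem RK_tgt_sh (s : I → G) (g : G) (e : (G × I) × Bool) :
    N1_tgt s (RK_sh g e) = g * N1_tgt s e := N1_tgt_tr s g e

theorem RK_walk_shift (H : Subgroup G) (s : I → G) (g : G) :
    ∀ (l : List ((G × I) × Bool)) (a b : G),
    IsRWalk H s (QuotientGroup.mk a) l (QuotientGroup.mk b) →
    IsRWalk H s (QuotientGroup.mk (g * a)) (l.map (RK_sh g)) (QuotientGroup.mk (g * b)) := by
  intro l
  induction l with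
  | nil =>
    intro a b h
    have h' : (QuotientGroup.mk a : G ⧸ H) = QuotientGroup.mk b := h
    show (QuotientGroup.mk (g * a) : G ⧸ H) = QuotientGroup.mk (g * b)
    rw [QuotientGroup.eq] at h' ⊢
    have : (g * a)⁻¹ * (g * b) = a⁻¹ * b := by group
    rw [this]
    exact h'
  | cons e l ih =>
    intro a b h
    rw [rwalk_cons] at h
    rw [List.map_cons, rwalk_cons, RK_src_sh, RK_tgt_sh]
    refine ⟨?_, ih _ _ h.2⟩
    have h' := h.1
    rw [QuotientGroup.eq] at h' ⊢
    have : (g * N1_src s e)⁻¹ * (g * a) = (N1_src s e)⁻¹ * a := by group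
    rw [this]
    exact h'

/-- The shift of edges as a permutation. -/
def RK_perm (g : G) : Equiv.Perm (G × I) := (Equiv.mulLeft g).prodCongr (Equiv.refl I)

theorem RK_perm_apply (g : G) (e : G × I) : RK_perm g e = (g * e.1, e.2) := rfl

theorem RK_perm_inv (g : G) : (RK_perm g : Equiv.Perm (G × I))⁻¹ = RK_perm g⁻¹ := by
  ext e
  · simp [RK_perm]
  · simp [RK_perm]

omit [Group G] in
theorem RK_permOp_delta (e : Equiv.Perm (G × I)) (x : G × I) :
    permOp e⁻¹ (delta x) = delta (e x) := by
  classical
  ext y
  rw [permOp_apply, delta_apply, delta_apply]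
  have : e⁻¹ y = x ↔ y = e x := Equiv.Perm.inv_eq_iff_eq
  simp only [this]

theorem RK_permOp_walkVec (g : G) (l : List ((G × I) × Bool)) :
    permOp (RK_perm g)⁻¹ (walkVec l) = walkVec (l.map (RK_sh g)) := by
  induction l with
  | nil => simp [walkVec]
  | cons e l ih =>
    obtain ⟨e, o⟩ := e
    have h1 : walkVec ((e, o) :: l) = (if o then delta e else - delta e) + walkVec l := by
      simp [walkVec]
    have h2 : walkVec (((e, o) :: l).map (RK_sh g)) =
        (if o then delta (RK_perm g e) else - delta (RK_perm g e)) +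
          walkVec (l.map (RK_sh g)) := by
      simp [walkVec, RK_sh, RK_perm_apply]
    rw [h1, h2, map_add, ih]
    cases o <;> simp [RK_permOp_delta]

theorem RK_mem (H : Subgroup G) (s : I → G) (v : L2 (G × I)) :
    v ∈ rCocycles H s ↔ ∀ (a : G ⧸ H) (l : List ((G × I) × Bool)), IsRWalk H s a l a →
      ⟪walkVec l, v⟫_ℂ = 0 := by
  unfold rCocycles
  rw [Submodule.mem_orthogonal]
  constructor
  · intro h a l hl
    exact h _ (Submodule.subset_span ⟨a, l, hl, rfl⟩)
  · intro h u hu
    induction hu using Submodule.span_induction with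
    | mem x hx =>
      obtain ⟨a, l, hl, rfl⟩ := hx
      exact h a l hl
    | zero => simp
    | add x y _ _ hx hy => rw [inner_add_left, hx, hy, add_zero]
    | smul c x _ hx => rw [inner_smul_left, hx, mul_zero]

omit [Group G] in
theorem RK_permOp_inner (e : Equiv.Perm (G × I)) (x y : L2 (G × I)) :
    ⟪permOp e x, y⟫_ℂ = ⟪x, permOp e⁻¹ y⟫_ℂ := by
  rw [← permOp_star, ContinuousLinearMap.star_eq_adjoint,
    ContinuousLinearMap.adjoint_inner_right]

theorem RK_permOp_mem (H : Subgroup G) (s : I → G) (g : G) {v : L2 (G × I)} (hv : v ∈ rCocycles H s) :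
    permOp (RK_perm g) v ∈ rCocycles H s := by
  rw [RK_mem] at hv ⊢
  intro a l hl
  have h1 := RK_permOp_inner (RK_perm g)⁻¹ (walkVec l) v
  rw [inv_inv] at h1
  rw [← h1, RK_permOp_walkVec]
  obtain ⟨a, rfl⟩ := QuotientGroup.mk_surjective a
  exact hv _ _ (RK_walk_shift H s g l a a hl)

omit [Group G] in
theorem RK_permOp_cancel (e : Equiv.Perm (G × I)) (x : L2 (G × I)) :
    permOp e (permOp e⁻¹ x) = x := by
  ext y
  rw [permOp_apply, permOp_apply]
  simp

theorem RK_permOp_proj (H : Subgroup G) (s : I → G) (g : G) (x : L2 (G × I)) :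
    (rCocycles H s).starProjection (permOp (RK_perm g) x) =
      permOp (RK_perm g) ((rCocycles H s).starProjection x) := by
  refine (Submodule.eq_starProjection_of_mem_of_inner_eq_zero
    (RK_permOp_mem H s g (Submodule.starProjection_apply_mem _ x)) ?_)
  intro w hw
  rw [← map_sub, RK_permOp_inner, RK_perm_inv]
  exact Submodule.starProjection_inner_eq_zero _ _ (RK_permOp_mem H s g⁻¹ hw)

theorem rKer_shift (H : Subgroup G) (s : I → G) (g : G) (e f : G × I) :
    rKer H s (g * e.1, e.2) (g * f.1, f.2) = rKer H s e f := by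
  have he : ∀ x : G × I, (delta (g * x.1, x.2) : L2 (G × I)) =
      permOp (RK_perm g⁻¹) (delta x) := by
    intro x
    rw [← RK_perm_inv, RK_permOp_delta]
    rfl
  unfold rKer
  rw [he e, he f, RK_permOp_proj, RK_permOp_inner]
  have := RK_permOp_cancel (RK_perm g⁻¹)⁻¹ ((rCocycles H s).starProjection (delta f))
  rw [inv_inv] at this
  rw [this]

theorem rKer_diag (H : Subgroup G) (s : I → G) (e : G × I) :
    (rKer H s e e).re = ‖(rCocycles H s).starProjection (delta e)‖ ^ 2 := by
  rw [RK_gram]
  exact inner_self_eq_norm_sq (𝕜 := ℂ) _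

omit [Group G] in
theorem RK_walkVec_zero (l : List ((G × I) × Bool)) (x : G × I)
    (hx : x ∉ l.map Prod.fst) : (walkVec l : L2 (G × I)) x = 0 := by
  classical
  induction l with
  | nil => simp [walkVec]
  | cons e l ih =>
    obtain ⟨e, o⟩ := e
    have h1 : walkVec ((e, o) :: l) = (if o then delta e else - delta e) + walkVec l := by
      simp [walkVec]
    rw [List.map_cons, List.mem_cons, not_or] at hx
    have hx1 : x ≠ e := hx.1
    rw [h1, lp.coeFn_add, Pi.add_apply, ih hx.2]
    cases o <;> simp [delta_apply, hx1]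

/-- If `A` contains a simple closed walk then the kernel restricted to `A` is singular. -/
theorem rKer_cycle (H : Subgroup G) (s : I → G) (A : Finset (G × I)) (hA : ¬ IsRForest H s (A : Set (G × I))) :
    ∃ c : G × I → ℂ, (∃ e ∈ A, c e ≠ 0) ∧ ∀ e ∈ A, ∑ f ∈ A, rKer H s e f * c f = 0 := by
  classical
  unfold IsRForest at hA
  push Not at hA
  obtain ⟨a, l, hl, hlA, hnd, hne⟩ := hA
  refine ⟨fun f => (walkVec l : L2 (G × I)) f, ?_, ?_⟩
  · cases l with
    | nil => exact absurd rfl hne
    | cons e l =>
      obtain ⟨e, o⟩ := e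
      refine ⟨e, by simpa using hlA (e, o) (by simp), ?_⟩
      have h1 : walkVec ((e, o) :: l) = (if o then delta e else - delta e) + walkVec l := by
        simp [walkVec]
      rw [List.map_cons, List.nodup_cons] at hnd
      show (walkVec ((e, o) :: l) : L2 (G × I)) e ≠ 0
      rw [h1, lp.coeFn_add, Pi.add_apply, RK_walkVec_zero l e hnd.1]
      cases o <;> simp [delta_apply]
  · intro e _
    have hw : (∑ f ∈ A, (walkVec l : L2 (G × I)) f • (delta f : L2 (G × I))) = walkVec l := by
      ext x
      rw [lp.coeFn_sum, Finset.sum_apply]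
      simp only [lp.coeFn_smul, Pi.smul_apply, delta_apply, smul_eq_mul, mul_ite, mul_one,
        mul_zero, Finset.sum_ite_eq]
      split_ifs with hx
      · rfl
      · symm
        apply RK_walkVec_zero
        intro hx'
        obtain ⟨e', he', rfl⟩ := List.mem_map.1 hx'
        exact hx (by simpa using hlA e' he')
    have h0 : ⟪(delta e : L2 (G × I)), (rCocycles H s).starProjection (walkVec l)⟫_ℂ = 0 := by
      rw [← Submodule.inner_starProjection_left_eq_right, ← inner_conj_symm]
      rw [(RK_mem H s _).1 (Submodule.starProjection_apply_mem _ _) a l hl, map_zero]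
    rw [← hw, map_sum, inner_sum] at h0
    rw [← h0]
    refine Finset.sum_congr rfl fun f _ => ?_
    rw [map_smul, inner_smul_right, mul_comm]
    rfl

end Pool.Agent.Helper59.EXR
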