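import Pool.Agent.Helper59.EXR.Rel

/-!
EXR: difference operators along walks.
-/

open scoped InnerProductSpace ComplexOrder

namespace Pool.Agent.Helper59.EXR

open Pool.Agent.Helper59.EX

section

variable {G I J : Type}

/-- restriction to the edges of label `i` -/
noncomputable def res (i : I) : L2 (G × I) →L[ℂ] L2 G :=
  LinearMap.mkContinuous
    { toFun := fun f => ⟨fun x => f (x, i), by
        have h := lp.memℓp f
        rw [memℓp_gen_iff (by norm_num)] at h
        have h2 : Memℓp (fun x : G => f (x, i)) 2 := by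
          rw [memℓp_gen_iff (by norm_num)]
          exact h.comp_injective (i := fun x : G => (x, i)) (Prod.mk_left_injective i)
        exact h2⟩
      map_add' := fun f g => by ext x; rfl
      map_smul' := fun c f => by ext x; rfl } 1 (fun f => by
        rw [one_mul, lp.norm_eq_tsum_rpow (by norm_num), lp.norm_eq_tsum_rpow (by norm_num)]
        have h := lp.memℓp f
        rw [memℓp_gen_iff (by norm_num)] at h
        refine Real.rpow_le_rpow (tsum_nonneg fun x => by positivity) ?_ (by positivity)
        exact tsum_comp_le_tsum_of_inj h (fun x => by positivity)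
          (i := fun x : G => (x, i)) (Prod.mk_left_injective i))

theorem res_apply (i : I) (f : L2 (G × I)) (x : G) : res i f x = f (x, i) := rfl

open Classical in
theorem adj_res_apply (j : J) (φ : L2 G) (x : G) (j' : J) :
    (ContinuousLinearMap.adjoint (res j : L2 (G × J) →L[ℂ] L2 G) φ) (x, j') =
      if j' = j then φ x else 0 := by
  rw [← inner_delta_left, ContinuousLinearMap.adjoint_inner_right]
  have h1 : (res j (delta (x, j')) : L2 G) = if j' = j then delta x else 0 := by
    ext y
    rw [res_apply, delta_apply]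
    by_cases h : j' = j
    · subst h
      rw [if_pos rfl, delta_apply]
      simp only [Prod.mk.injEq, and_true]
    · rw [if_neg h, if_neg (fun h' => h (Prod.mk.inj h').2.symm)]
      rfl
  rw [h1]
  split_ifs
  · rw [inner_delta_left]
  · rw [inner_zero_left]

variable [Group G]

/-- The elementary operator. -/
noncomputable def opE (y : G) (i : I) (j : J) : L2 (G × I) →L[ℂ] L2 (G × J) :=
  ContinuousLinearMap.adjoint (res j) ∘L (rightReg y : L2 G →L[ℂ] L2 G) ∘L res i

open Classical in
theorem opE_apply (y : G) (i : I) (j : J) (f : L2 (G × I)) (x : G) (j' : J) :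
    opE y i j f (x, j') = if j' = j then f (x * y, i) else 0 := by
  show (ContinuousLinearMap.adjoint (res j : L2 (G × J) →L[ℂ] L2 G)
    ((rightReg y : L2 G →L[ℂ] L2 G) (res i f))) (x, j') = _
  rw [adj_res_apply]
  rfl

theorem opE_eqv (y : G) (i : I) (j : J) : Eqv (opE y i j : L2 (G × I) →L[ℂ] L2 (G × J)) := by
  classical
  intro g f
  ext ⟨x, j'⟩
  rw [opE_apply]
  have h1 : sh g (opE y i j f : L2 (G × J)) (x, j') = opE y i j f (g⁻¹ * x, j') := rfl
  rw [h1, opE_apply, sh_apply, mul_assoc]

theorem Eqv.add' {S T : L2 (G × I) →L[ℂ] L2 (G × J)} (hS : Eqv S) (hT : Eqv T) : Eqv (S + T) := by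
  intro g f
  rw [add_apply, add_apply, map_add, hS, hT]

theorem Eqv.neg' {S : L2 (G × I) →L[ℂ] L2 (G × J)} (hS : Eqv S) : Eqv (-S) := by
  intro g f
  rw [neg_apply, neg_apply, map_neg, hS]

theorem Eqv.smul' {S : L2 (G × I) →L[ℂ] L2 (G × J)} (hS : Eqv S) (c : ℂ) : Eqv (c • S) := by
  intro g f
  rw [smul_apply, smul_apply, map_smul, hS]

theorem Eqv.zero' : Eqv (0 : L2 (G × I) →L[ℂ] L2 (G × J)) := by
  intro g f
  rw [zero_apply, zero_apply, map_zero]

theorem Eqv.sum' {A : Type} (t : Finset A) (S : A → L2 (G × I) →L[ℂ] L2 (G × J))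
    (hS : ∀ a ∈ t, Eqv (S a)) : Eqv (∑ a ∈ t, S a) := by
  classical
  induction t using Finset.induction_on with
  | empty => rw [Finset.sum_empty]; exact Eqv.zero'
  | insert a t ha ih =>
    rw [Finset.sum_insert ha]
    exact (hS a (Finset.mem_insert_self _ _)).add'
      (ih fun b hb => hS b (Finset.mem_insert_of_mem hb))

/-- The operator of a walk, with values in the functions on the edges of label `j`. -/
noncomputable def wop (j : J) : List ((G × I) × Bool) → (L2 (G × I) →L[ℂ] L2 (G × J))
  | [] => 0
  | e :: l => (if e.2 then opE e.1.1 e.1.2 j else - opE e.1.1 e.1.2 j) + wop j l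

theorem wop_eqv (j : J) (l : List ((G × I) × Bool)) : Eqv (wop j l) := by
  induction l with
  | nil => exact Eqv.zero'
  | cons e l ih =>
    refine Eqv.add' ?_ ih
    split_ifs
    · exact opE_eqv _ _ _
    · exact (opE_eqv _ _ _).neg'

open Classical in
theorem wop_apply (j : J) (l : List ((G × I) × Bool)) (f : L2 (G × I)) (x : G) (j' : J) :
    wop j l f (x, j') = if j' = j then ⟪walkVec (N1_tr x l), f⟫_ℂ else 0 := by
  induction l with
  | nil =>
    show (0 : ℂ) = _
    have : (N1_tr x ([] : List ((G × I) × Bool))) = [] := rfl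
    rw [this, wv_nil, ite_self]
  | cons e l ih =>
    have h1 : wop j (e :: l) f (x, j') =
        ((if e.2 then opE e.1.1 e.1.2 j else - opE e.1.1 e.1.2 j :
          L2 (G × I) →L[ℂ] L2 (G × J)) f) (x, j') + wop j l f (x, j') := rfl
    have h2 : N1_tr x (e :: l) = ((x * e.1.1, e.1.2), e.2) :: N1_tr x l := rfl
    rw [h1, h2, ih, wv_cons]
    have h3 : ((if e.2 then opE e.1.1 e.1.2 j else - opE e.1.1 e.1.2 j :
          L2 (G × I) →L[ℂ] L2 (G × J)) f) (x, j') =
        if j' = j then (if e.2 then f (x * e.1.1, e.1.2) else - f (x * e.1.1, e.1.2)) else 0 := by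
      by_cases h : e.2
      · rw [if_pos h, if_pos h]
        exact opE_apply _ _ _ _ _ _
      · rw [if_neg h, if_neg h]
        show - (opE e.1.1 e.1.2 j f (x, j')) = _
        rw [opE_apply]
        split_ifs <;> simp
    rw [h3]
    split_ifs <;> simp

/-- The difference operator along a family of walks. -/
noncomputable def dop [Fintype J] (w : J → List ((G × I) × Bool)) :
    L2 (G × I) →L[ℂ] L2 (G × J) := ∑ j, wop j (w j)

theorem dop_eqv [Fintype J] (w : J → List ((G × I) × Bool)) : Eqv (dop w) :=
  Eqv.sum' _ _ fun _ _ => wop_eqv _ _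

theorem dop_apply [Fintype J] (w : J → List ((G × I) × Bool)) (f : L2 (G × I)) (x : G) (j : J) :
    dop w f (x, j) = ⟪walkVec (N1_tr x (w j)), f⟫_ℂ := by
  classical
  have h1 : dop w f (x, j) = ∑ k, wop k (w k) f (x, j) := by
    rw [dop, sum_apply, lp.coeFn_sum, Finset.sum_apply]
  rw [h1]
  simp only [wop_apply]
  rw [Finset.sum_ite_eq]
  simp

/-- Differences of a potential. -/
theorem dop_pot [Fintype J] (s : I → G) (f : L2 (G × I)) (F : G → ℂ) (hF : IsPot s f F)
    (h : J → G) (w : J → List ((G × I) × Bool)) (hw : ∀ j, IsWalk s 1 (w j) (h j)) (x : G)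
    (j : J) : dop w f (x, j) = F (x * h j) - F x := by
  rw [dop_apply]
  have h1 := hF _ _ _ (N1_walk_tr s x _ _ _ (hw j))
  rw [mul_one] at h1
  exact h1

/-- The lower bound for the dimension of the space of cocycles relative to a finitely generated
subgroup. -/
theorem rel_lower_fg [Fintype I] [Fintype J] (s : I → G)
    (hs : Subgroup.closure (Set.range s) = ⊤) (h : J → G) :
    l2CocycleDim s - l2CocycleDim h ≤
      ∑ i, ‖(rCocycles (Subgroup.closure (Set.range h)) s).starProjection
        (delta ((1 : G), i))‖ ^ 2 := by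
  choose w hw using fun j : J => exists_walk s (h j) (by rw [hs]; trivial)
  refine rel_lower (Subgroup.closure (Set.range h)) s (dop w) (dop_eqv w) (l2Cocycles h) ?_ ?_
  · intro f hf
    obtain ⟨F, hF⟩ := exists_pot s hs f hf
    exact mem_l2Cocycles_of h _ F (dop_pot s f F hF h w hw)
  · intro f hf h0
    obtain ⟨F, hF⟩ := exists_pot s hs f hf
    refine mem_rCocycles_of _ s f F hF ?_
    have h1 : ∀ j x, F (x * h j) = F x := by
      intro j x
      have h2 := dop_pot s f F hF h w hw x j
      rw [h0] at h2
      exact (sub_eq_zero.1 h2.symm)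
    intro x y hy
    induction hy using Subgroup.closure_induction generalizing x with
    | mem y hy => obtain ⟨j, rfl⟩ := hy; exact h1 j x
    | one => rw [mul_one]
    | mul y z _ _ hy hz => rw [← mul_assoc, hz, hy]
    | inv y _ hy => rw [← hy (x * y⁻¹), inv_mul_cancel_right]

end

end Pool.Agent.Helper59.EXR
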