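import Pool.Agent.Helper59.EXR.Dim2
import Pool.Agent.Helper59.EX.Betti

/-!
EXR: potentials of square summable cocycles; lower bound for the dimension of the space of
relative cocycles.
-/

open scoped InnerProductSpace ComplexOrder

namespace Pool.Agent.Helper59.EXR

open Pool.Agent.Helper59.EX

section

variable {G I J : Type} [Group G]

theorem wv_nil (f : L2 (G × I)) : ⟪(walkVec [] : L2 (G × I)), f⟫_ℂ = 0 := by
  simp [walkVec]

theorem wv_cons (e : (G × I) × Bool) (l : List ((G × I) × Bool)) (f : L2 (G × I)) :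
    ⟪walkVec (e :: l), f⟫_ℂ = (if e.2 then f e.1 else - f e.1) + ⟪walkVec l, f⟫_ℂ := by
  have h1 : walkVec (e :: l) = (if e.2 then delta e.1 else - delta e.1) + walkVec l := by
    simp [walkVec]
  rw [h1, inner_add_left]
  congr 1
  split_ifs
  · exact inner_delta_left _ _
  · rw [inner_neg_left, inner_delta_left]

theorem wv_append (l l' : List ((G × I) × Bool)) (f : L2 (G × I)) :
    ⟪walkVec (l ++ l'), f⟫_ℂ = ⟪walkVec l, f⟫_ℂ + ⟪walkVec l', f⟫_ℂ := by
  induction l with
  | nil => rw [List.nil_append, wv_nil, zero_add]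
  | cons e l ih => rw [List.cons_append, wv_cons, wv_cons, ih, add_assoc]

theorem wv_rev (l : List ((G × I) × Bool)) (f : L2 (G × I)) :
    ⟪walkVec (N1_rev l), f⟫_ℂ = - ⟪walkVec l, f⟫_ℂ := by
  induction l with
  | nil => simp [N1_rev, walkVec]
  | cons e l ih =>
    rw [N1_rev_cons, wv_append, ih, wv_cons, wv_cons, wv_nil]
    obtain ⟨e, d⟩ := e
    cases d <;> simp

theorem mem_l2Cocycles (s : I → G) (v : L2 (G × I)) :
    v ∈ l2Cocycles s ↔ ∀ (a : G) (l : List ((G × I) × Bool)), IsWalk s a l a →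
      ⟪walkVec l, v⟫_ℂ = 0 := by
  unfold l2Cocycles
  rw [Submodule.mem_orthogonal]
  constructor
  · intro h a l hl
    exact h _ (Submodule.subset_span ⟨a, l, hl, rfl⟩)
  · intro h u hu
    induction hu using Submodule.span_induction with
    | mem x hx =>
      obtain ⟨a, l, hl, rfl⟩ := hx
      exact h a l hl
    | zero => simp
    | add x y _ _ hx hy => rw [inner_add_left, hx, hy, add_zero]
    | smul c x _ hx => rw [inner_smul_left, hx, mul_zero]

theorem walk_edge (s : I → G) (g : G) (i : I) : IsWalk s g [((g, i), true)] (g * s i) := ⟨rfl, rfl⟩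

theorem exists_walk (s : I → G) (g : G) (hg : g ∈ Subgroup.closure (Set.range s)) :
    ∃ l, IsWalk s 1 l g := by
  induction hg using Subgroup.closure_induction with
  | mem y hy =>
    obtain ⟨i, rfl⟩ := hy
    refine ⟨[((1, i), true)], ?_⟩
    have := walk_edge s 1 i
    rwa [one_mul] at this
  | one => exact ⟨[], rfl⟩
  | mul y z _ _ hy hz =>
    obtain ⟨l, hl⟩ := hy
    obtain ⟨l', hl'⟩ := hz
    refine ⟨l ++ N1_tr y l', (N1_walk_append s _ _ _ _).2 ⟨y, hl, ?_⟩⟩
    have := N1_walk_tr s y l' _ _ hl'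
    rwa [mul_one] at this
  | inv y _ hy =>
    obtain ⟨l, hl⟩ := hy
    refine ⟨N1_tr y⁻¹ (N1_rev l), ?_⟩
    have := N1_walk_tr s y⁻¹ _ _ _ (N1_walk_rev s l _ _ hl)
    rwa [inv_mul_cancel, mul_one] at this

/-- `F` is a potential of `f`. -/
def IsPot (s : I → G) (f : L2 (G × I)) (F : G → ℂ) : Prop :=
  ∀ (l : List ((G × I) × Bool)) (a b : G), IsWalk s a l b → ⟪walkVec l, f⟫_ℂ = F b - F a

theorem exists_pot (s : I → G) (hs : Subgroup.closure (Set.range s) = ⊤) (f : L2 (G × I))
    (hf : f ∈ l2Cocycles s) : ∃ F : G → ℂ, IsPot s f F := by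
  choose w hw using fun g : G => exists_walk s g (by rw [hs]; trivial)
  refine ⟨fun g => ⟪walkVec (w g), f⟫_ℂ, fun l a b hl => ?_⟩
  have h1 := (mem_l2Cocycles s f).1 hf 1 (w a ++ (l ++ N1_rev (w b)))
    ((N1_walk_append s _ _ _ _).2 ⟨a, hw a, (N1_walk_append s _ _ _ _).2
      ⟨b, hl, N1_walk_rev s _ _ _ (hw b)⟩⟩)
  rw [wv_append, wv_append, wv_rev] at h1
  linear_combination h1

theorem IsPot.edge {s : I → G} {f : L2 (G × I)} {F : G → ℂ} (h : IsPot s f F) (g : G) (i : I) :
    f (g, i) = F (g * s i) - F g := by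
  have h1 := h _ _ _ (walk_edge s g i)
  rw [wv_cons, wv_nil] at h1
  simpa using h1

theorem IsPot.step {s : I → G} {f : L2 (G × I)} {F : G → ℂ} (h : IsPot s f F)
    (e : (G × I) × Bool) :
    (if e.2 then f e.1 else - f e.1) = F (N1_tgt s e) - F (N1_src s e) := by
  obtain ⟨⟨g, i⟩, d⟩ := e
  cases d
  · simp only [Bool.false_eq_true, if_false, N1_tgt, N1_src]
    rw [h.edge]
    ring
  · simp only [if_true, N1_tgt, N1_src]
    rw [h.edge]

theorem mem_rCocycles_of (H : Subgroup G) (s : I → G) (f : L2 (G × I)) (F : G → ℂ)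
    (h : IsPot s f F) (hF : ∀ x, ∀ y ∈ H, F (x * y) = F x) : f ∈ rCocycles H s := by
  have hF' : ∀ x y : G, (QuotientGroup.mk x : G ⧸ H) = QuotientGroup.mk y → F x = F y := by
    intro x y hxy
    rw [QuotientGroup.eq] at hxy
    have := hF x _ hxy
    rw [mul_inv_cancel_left] at this
    exact this.symm
  have key : ∀ (l : List ((G × I) × Bool)) (x y : G),
      IsRWalk H s (QuotientGroup.mk x) l (QuotientGroup.mk y) →
      ⟪walkVec l, f⟫_ℂ = F y - F x := by
    intro l
    induction l with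
    | nil =>
      intro x y hl
      rw [wv_nil, hF' x y hl, sub_self]
    | cons e l ih =>
      intro x y hl
      rw [rwalk_cons] at hl
      rw [wv_cons, ih _ _ hl.2, h.step, hF' _ _ hl.1]
      ring
  rw [RK_mem]
  intro a l hl
  obtain ⟨a, rfl⟩ := QuotientGroup.mk_surjective a
  rw [key l a a hl, sub_self]

theorem mem_l2Cocycles_of (h : J → G) (φ : L2 (G × J)) (F : G → ℂ)
    (hφ : ∀ x j, φ (x, j) = F (x * h j) - F x) : φ ∈ l2Cocycles h := by
  have key : ∀ (l : List ((G × J) × Bool)) (x y : G), IsWalk h x l y →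
      ⟪walkVec l, φ⟫_ℂ = F y - F x := by
    intro l
    induction l with
    | nil =>
      intro x y hl
      have hl' : x = y := hl
      rw [wv_nil, hl', sub_self]
    | cons e l ih =>
      intro x y hl
      rw [N1_walk_cons] at hl
      rw [wv_cons, ih _ _ hl.2, ← hl.1]
      obtain ⟨⟨g, i⟩, d⟩ := e
      cases d
      · simp only [Bool.false_eq_true, if_false, N1_tgt, N1_src]
        rw [hφ]
        ring
      · simp only [if_true, N1_tgt, N1_src]
        rw [hφ]
        ring
  rw [mem_l2Cocycles]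
  intro a l hl
  rw [key l a a hl, sub_self]

theorem proj_eqv (K : Submodule ℂ (L2 (G × I))) [K.HasOrthogonalProjection]
    (hK : ∀ g : G, ∀ v ∈ K, sh g v ∈ K) : Eqv K.starProjection := by
  intro g x
  refine Submodule.eq_starProjection_of_mem_of_inner_eq_zero
    (hK g _ (Submodule.starProjection_apply_mem _ x)) ?_
  intro w hw
  rw [← map_sub, sh_inner]
  exact Submodule.starProjection_inner_eq_zero _ _ (hK g⁻¹ _ hw)

theorem sh_walkVec (g : G) (l : List ((G × I) × Bool)) :
    sh g (walkVec l) = walkVec (N1_tr g l) := by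
  have h := RK_permOp_walkVec g l
  rw [RK_perm_inv] at h
  exact h

theorem l2Cocycles_sh (s : I → G) (g : G) (v : L2 (G × I)) (hv : v ∈ l2Cocycles s) :
    sh g v ∈ l2Cocycles s := by
  rw [mem_l2Cocycles] at hv ⊢
  intro a l hl
  have h1 : ⟪walkVec l, sh g v⟫_ℂ = ⟪sh g⁻¹ (walkVec l), v⟫_ℂ := by
    rw [sh_inner, inv_inv]
  rw [h1, sh_walkVec]
  exact hv _ _ (N1_walk_tr s g⁻¹ l a a hl)

theorem rel_lower [Fintype I] [Fintype J] (H : Subgroup G) (s : I → G)
    (T : L2 (G × I) →L[ℂ] L2 (G × J)) (hT : Eqv T)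
    (K : Submodule ℂ (L2 (G × J))) [K.HasOrthogonalProjection]
    (hK : ∀ f ∈ l2Cocycles s, T f ∈ K)
    (hker : ∀ f ∈ l2Cocycles s, T f = 0 → f ∈ rCocycles H s) :
    l2CocycleDim s - ∑ j, ‖K.starProjection (delta ((1 : G), j))‖ ^ 2 ≤
      ∑ i, ‖(rCocycles H s).starProjection (delta ((1 : G), i))‖ ^ 2 := by
  set Z := l2Cocycles s with hZ
  set S : L2 (G × I) →L[ℂ] L2 (G × J) := T ∘L Z.starProjection with hS
  have hSe : Eqv S := hT.comp (proj_eqv Z (l2Cocycles_sh s))
  have h1 := dim_le S hSe K (fun x => hK _ (Submodule.starProjection_apply_mem _ _))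
  have hle : cor S ≤ Z := by
    have h2 : (LinearMap.range (ContinuousLinearMap.adjoint S :
        L2 (G × J) →ₗ[ℂ] L2 (G × I))) ≤ Z := by
      rintro _ ⟨a, rfl⟩
      have h3 : (ContinuousLinearMap.adjoint S a) ∈ Zᗮᗮ := by
        rw [Submodule.mem_orthogonal]
        intro w hw
        rw [ContinuousLinearMap.adjoint_inner_right]
        have h4 : S w = 0 := by
          show T (Z.starProjection w) = 0
          rw [(Submodule.starProjection_apply_eq_zero_iff Z).2 hw, map_zero]
        rw [h4, inner_zero_left]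
      rwa [Submodule.orthogonal_orthogonal] at h3
    unfold cor
    refine (Submodule.orthogonal_le (Submodule.orthogonal_le h2)).trans ?_
    rw [Submodule.orthogonal_orthogonal]
  have h2 : ∀ x : L2 (G × I), ‖Z.starProjection x‖ ^ 2 - ‖(cor S).starProjection x‖ ^ 2 ≤
      ‖(rCocycles H s).starProjection x‖ ^ 2 := by
    intro x
    set p := Z.starProjection x with hp
    set m := (cor S).starProjection x with hm
    have hpZ : p ∈ Z := Submodule.starProjection_apply_mem _ _
    have hmM : m ∈ cor S := Submodule.starProjection_apply_mem _ _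
    have hy0 : ∀ c ∈ cor S, ⟪c, p - m⟫_ℂ = 0 := by
      intro c hc
      rw [inner_sub_right, hp, hm, ← Submodule.inner_starProjection_left_eq_right,
        ← Submodule.inner_starProjection_left_eq_right,
        Submodule.starProjection_eq_self_iff.2 hc,
        Submodule.starProjection_eq_self_iff.2 (hle hc), sub_self]
    have hyZ : p - m ∈ Z := Submodule.sub_mem _ hpZ (hle hmM)
    have hSy : T (p - m) = 0 := by
      have h3 := mem_cor_orthogonal S (p - m) hy0
      have h4 : S (p - m) = T (Z.starProjection (p - m)) := rfl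
      rw [h4, Submodule.starProjection_eq_self_iff.2 hyZ] at h3
      exact h3
    have hyR : p - m ∈ rCocycles H s := hker _ hyZ hSy
    have h5 : ‖p‖ ^ 2 = ‖m‖ ^ 2 + ‖p - m‖ ^ 2 := by
      have h6 := norm_add_sq_eq_norm_sq_add_norm_sq_of_inner_eq_zero _ _ (hy0 m hmM)
      rw [add_sub_cancel] at h6
      simpa [pow_two] using h6
    have h7 : ⟪x, p - m⟫_ℂ = ⟪p - m, p - m⟫_ℂ := by
      have h8 : ⟪x, p - m⟫_ℂ = ⟪p, p - m⟫_ℂ := by
        rw [hp, Submodule.inner_starProjection_left_eq_right,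
          Submodule.starProjection_eq_self_iff.2 hyZ]
      have h9 : ⟪p, p - m⟫_ℂ = ⟪m, p - m⟫_ℂ + ⟪p - m, p - m⟫_ℂ := by
        rw [← inner_add_left, add_sub_cancel]
      rw [h8, h9, hy0 m hmM, zero_add]
    have h10 : ⟪x, p - m⟫_ℂ = ⟪(rCocycles H s).starProjection x, p - m⟫_ℂ := by
      rw [Submodule.inner_starProjection_left_eq_right,
        Submodule.starProjection_eq_self_iff.2 hyR]
    have h11 : ‖p - m‖ ^ 2 ≤ ‖(rCocycles H s).starProjection x‖ * ‖p - m‖ := by
      have h12 : ‖⟪p - m, p - m⟫_ℂ‖ = ‖p - m‖ ^ 2 := by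
        rw [inner_self_eq_norm_sq_to_K]
        simp
      rw [← h12, ← h7, h10]
      exact norm_inner_le_norm _ _
    have h13 : ‖p - m‖ ≤ ‖(rCocycles H s).starProjection x‖ := by
      rcases eq_or_lt_of_le (norm_nonneg (p - m)) with h0 | h0
      · rw [← h0]; positivity
      · refine le_of_mul_le_mul_right ?_ h0
        rw [← pow_two]
        exact h11
    have h14 := pow_le_pow_left₀ (norm_nonneg _) h13 2
    linarith
  have h3 := Finset.sum_le_sum fun i (_ : i ∈ (Finset.univ : Finset I)) =>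
    h2 (delta ((1 : G), i))
  rw [Finset.sum_sub_distrib] at h3
  unfold l2CocycleDim
  linarith

end

end Pool.Agent.Helper59.EXR
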