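import Pool.Agent.Helper59.EXR.Op
import Pool.Agent.Helper59.EX.St.P2

/-!
EXR: upper bounds for dimensions; finite subgroups.
-/

open scoped InnerProductSpace ComplexOrder

namespace Pool.Agent.Helper59.EXR

open Pool.Agent.Helper59.EX

section

variable {G I J : Type} [Group G]

theorem norm_proj_delta_le (K : Submodule ℂ (L2 (G × J))) [K.HasOrthogonalProjection]
    (e : G × J) : ‖K.starProjection (delta e)‖ ^ 2 ≤ 1 := by
  have h1 : ‖K.starProjection (delta e)‖ ≤ 1 := by
    have h2 := Submodule.norm_starProjection_apply_le K (delta e : L2 (G × J))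
    rwa [norm_delta] at h2
  have h3 := pow_le_pow_left₀ (norm_nonneg _) h1 2
  rwa [one_pow] at h3

theorem norm_proj_mono (K L : Submodule ℂ (L2 (G × J))) [K.HasOrthogonalProjection]
    [L.HasOrthogonalProjection] (hKL : K ≤ L) (x : L2 (G × J)) :
    ‖K.starProjection x‖ ≤ ‖L.starProjection x‖ := by
  have h1 : K.starProjection x = K.starProjection (L.starProjection x) := by
    refine ext_inner_left ℂ fun v => ?_
    rw [← Submodule.inner_starProjection_left_eq_right,
      ← Submodule.inner_starProjection_left_eq_right,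
      ← Submodule.inner_starProjection_left_eq_right L,
      Submodule.starProjection_eq_self_iff.2 (hKL (Submodule.starProjection_apply_mem _ v))]
  rw [h1]
  exact Submodule.norm_starProjection_apply_le K _

/-- The divergence. -/
noncomputable def dvg [Fintype J] (h : J → G) : L2 (G × J) →L[ℂ] L2 (G × Unit) :=
  ∑ j, (opE (h j)⁻¹ j () + - opE 1 j ())

theorem dvg_eqv [Fintype J] (h : J → G) : Eqv (dvg h) :=
  Eqv.sum' _ _ fun _ _ => (opE_eqv _ _ _).add' (opE_eqv _ _ _).neg'

theorem dvg_apply [Fintype J] (h : J → G) (f : L2 (G × J)) (x : G) :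
    dvg h f (x, ()) = ⟪starVec h x, f⟫_ℂ := by
  classical
  have h1 : dvg h f (x, ()) = ∑ j, (opE (h j)⁻¹ j () f (x, ()) + - opE 1 j () f (x, ())) := by
    rw [dvg, sum_apply, lp.coeFn_sum, Finset.sum_apply]
    rfl
  rw [h1, starVec, sum_inner]
  refine Finset.sum_congr rfl fun j _ => ?_
  rw [opE_apply, opE_apply, inner_sub_left, inner_delta_left, inner_delta_left, if_pos rfl,
    if_pos rfl, mul_one, sub_eq_add_neg]

theorem cobound_le_cor [Fintype J] (h : J → G) : l2Cobound h ≤ cor (dvg h) := by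
  unfold l2Cobound cor
  refine Submodule.orthogonal_le (Submodule.orthogonal_le ?_)
  rw [Submodule.span_le]
  rintro _ ⟨x, rfl⟩
  refine ⟨delta (x, ()), ?_⟩
  refine ext_inner_right ℂ fun f => ?_
  have h1 : ⟪(ContinuousLinearMap.adjoint (dvg h) : L2 (G × Unit) →L[ℂ] L2 (G × J))
      (delta (x, ())), f⟫_ℂ = ⟪starVec h x, f⟫_ℂ := by
    rw [ContinuousLinearMap.adjoint_inner_left, inner_delta_left, dvg_apply]
  exact h1

theorem dim_cobound_le_one [Fintype J] (h : J → G) :
    ∑ j, ‖(l2Cobound h).starProjection (delta ((1 : G), j))‖ ^ 2 ≤ 1 := by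
  have h1 := dim_le (dvg h) (dvg_eqv h) (⊤ : Submodule ℂ (L2 (G × Unit))) (fun _ => trivial)
  have h2 : ∑ j : Unit, ‖(⊤ : Submodule ℂ (L2 (G × Unit))).starProjection
      (delta ((1 : G), j))‖ ^ 2 ≤ 1 := by
    rw [Finset.univ_unique, Finset.sum_singleton]
    exact norm_proj_delta_le _ _
  refine le_trans (Finset.sum_le_sum fun j _ => ?_) (h1.trans h2)
  exact pow_le_pow_left₀ (norm_nonneg _) (norm_proj_mono _ _ (cobound_le_cor h) _) 2

theorem cocycleDim_le [Fintype J] (h : J → G) : l2CocycleDim h ≤ 1 + l2Betti h := by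
  have h2 : l2CocycleDim h = (∑ i, ‖(l2Cobound h).starProjection (delta ((1 : G), i))‖ ^ 2) +
      l2Betti h := by
    unfold l2CocycleDim l2Betti
    rw [← Finset.sum_add_distrib]
    exact Finset.sum_congr rfl fun i _ => norm_sq_proj_cocycles h _
  rw [h2]
  have := dim_cobound_le_one h
  linarith

theorem cocycleDim_le_card [Fintype J] (h : J → G) : l2CocycleDim h ≤ Fintype.card J := by
  unfold l2CocycleDim
  have h1 : ∑ j, ‖(l2Cocycles h).starProjection (delta ((1 : G), j))‖ ^ 2 ≤ ∑ _j : J, (1 : ℝ) :=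
    Finset.sum_le_sum fun j _ => norm_proj_delta_le _ _
  simpa using h1

/-! ### Finite subgroups -/

/-- The indicator function of a left coset. -/
noncomputable def indC (H : Subgroup G) [Fintype H] (x : G) : L2 (G × Unit) :=
  ∑ y : H, delta (x * y, ())

/-- The functions with sum zero on the left cosets. -/
noncomputable def zsum (H : Subgroup G) [Fintype H] : Submodule ℂ (L2 (G × Unit)) :=
  (Submodule.span ℂ (Set.range (indC H)))ᗮ

instance zsum_hop (H : Subgroup G) [Fintype H] : (zsum H).HasOrthogonalProjection := by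
  unfold zsum
  infer_instance

theorem mem_zsum (H : Subgroup G) [Fintype H] (φ : L2 (G × Unit))
    (h : ∀ x, ∑ y : H, φ (x * y, ()) = 0) : φ ∈ zsum H := by
  unfold zsum
  rw [Submodule.mem_orthogonal]
  intro u hu
  induction hu using Submodule.span_induction with
  | mem u hu =>
    obtain ⟨x, rfl⟩ := hu
    rw [indC, sum_inner]
    simp only [inner_delta_left]
    exact h x
  | zero => simp
  | add x y _ _ hx hy => rw [inner_add_left, hx, hy, add_zero]
  | smul c x _ hx => rw [inner_smul_left, hx, mul_zero]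

theorem dim_zsum_le (H : Subgroup G) [Fintype H] :
    ∑ j : Unit, ‖(zsum H).starProjection (delta ((1 : G), j))‖ ^ 2 ≤
      1 - 1 / Fintype.card H := by
  classical
  rw [Finset.univ_unique, Finset.sum_singleton]
  have hm : (0 : ℝ) < Fintype.card H := by exact_mod_cast Fintype.card_pos
  set v : L2 (G × Unit) := delta ((1 : G), default) with hv
  set p := (zsum H).starProjection v with hp
  set u := indC H 1 with hu
  have hu2 : ⟪u, p⟫_ℂ = 0 := by
    have h1 : p ∈ zsum H := Submodule.starProjection_apply_mem _ _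
    unfold zsum at h1
    rw [Submodule.mem_orthogonal] at h1
    exact h1 _ (Submodule.subset_span ⟨1, rfl⟩)
  have hu1 : ⟪u, v⟫_ℂ = 1 := by
    rw [hu, indC, sum_inner, Finset.sum_eq_single (1 : H)]
    · rw [inner_delta_delta, if_pos]
      simp
    · intro y _ hy
      rw [inner_delta_delta, if_neg]
      intro h
      have h2 := (Prod.mk.inj h).1
      rw [one_mul] at h2
      exact hy (Subtype.ext h2)
    · intro h; exact absurd (Finset.mem_univ _) h
  have huu : ‖u‖ ^ 2 = Fintype.card H := by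
    have h1 : ⟪u, u⟫_ℂ = Fintype.card H := by
      have h2 : ∀ y : H, ⟪(delta ((1 : G) * y, ()) : L2 (G × Unit)), u⟫_ℂ = 1 := by
        intro y
        rw [hu, indC, inner_sum, Finset.sum_eq_single y]
        · rw [inner_delta_delta, if_pos rfl]
        · intro z _ hz
          rw [inner_delta_delta, if_neg]
          intro h
          have h2 := mul_left_cancel (Prod.mk.inj h).1
          exact hz (Subtype.ext h2).symm
        · intro h; exact absurd (Finset.mem_univ _) h
      have h3 : ⟪u, u⟫_ℂ = ∑ y : H, ⟪(delta ((1 : G) * y, ()) : L2 (G × Unit)), u⟫_ℂ := by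
        rw [← sum_inner]
        rfl
      rw [h3, Finset.sum_congr rfl fun y _ => h2 y]
      simp
    rw [inner_self_eq_norm_sq_to_K] at h1
    have h4 : ((‖u‖ ^ 2 : ℝ) : ℂ) = ((Fintype.card H : ℝ) : ℂ) := by
      push_cast
      exact h1
    exact_mod_cast h4
  have h5 : ⟪u, v - p⟫_ℂ = 1 := by rw [inner_sub_right, hu1, hu2, sub_zero]
  have h6 : 1 ≤ ‖u‖ * ‖v - p‖ := by
    have := norm_inner_le_norm (𝕜 := ℂ) u (v - p)
    rwa [h5, norm_one] at this
  have h7 : 1 ≤ Fintype.card H * ‖v - p‖ ^ 2 := by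
    rw [← huu, ← mul_pow]
    nlinarith
  have h8 : ‖v‖ ^ 2 = ‖p‖ ^ 2 + ‖v - p‖ ^ 2 := by
    have h9 : ⟪p, v - p⟫_ℂ = 0 := by
      rw [← inner_conj_symm, Submodule.starProjection_inner_eq_zero _ _
        (Submodule.starProjection_apply_mem _ _), map_zero]
    have h10 := norm_add_sq_eq_norm_sq_add_norm_sq_of_inner_eq_zero _ _ h9
    rw [add_sub_cancel] at h10
    simpa [pow_two] using h10
  rw [hv, norm_delta, one_pow] at h8
  have h11 : 1 / (Fintype.card H : ℝ) ≤ ‖v - p‖ ^ 2 := by
    rw [div_le_iff₀ hm]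
    linarith
  linarith

theorem rel_lower_fin [Fintype I] (s : I → G) (hs : Subgroup.closure (Set.range s) = ⊤)
    (H : Subgroup G) [Fintype H] :
    l2CocycleDim s - (1 - 1 / Fintype.card H) ≤
      ∑ i, ‖(rCocycles H s).starProjection (delta ((1 : G), i))‖ ^ 2 := by
  choose w hw using fun y : H => exists_walk s (y : G) (by rw [hs]; trivial)
  have hm : (Fintype.card H : ℂ) ≠ 0 := by exact_mod_cast Fintype.card_ne_zero
  set T : L2 (G × I) →L[ℂ] L2 (G × Unit) :=
    (-(1 / (Fintype.card H : ℂ))) • ∑ y : H, wop () (w y) with hT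
  have hTe : Eqv T := (Eqv.sum' _ _ fun _ _ => wop_eqv _ _).smul' _
  have hTp : ∀ (f : L2 (G × I)) (F : G → ℂ), IsPot s f F → ∀ x,
      T f (x, ()) = F x - (1 / (Fintype.card H : ℂ)) * ∑ y : H, F (x * y) := by
    intro f F hF x
    have h1 : T f (x, ()) = (-(1 / (Fintype.card H : ℂ))) * ∑ y : H, wop () (w y) f (x, ()) := by
      rw [hT, smul_apply, sum_apply, lp.coeFn_smul, Pi.smul_apply, lp.coeFn_sum,
        Finset.sum_apply, smul_eq_mul]
    have h2 : ∀ y : H, wop () (w y) f (x, ()) = F (x * y) - F x := by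
      intro y
      rw [wop_apply, if_pos rfl]
      have h3 := hF _ _ _ (N1_walk_tr s x _ _ _ (hw y))
      rw [mul_one] at h3
      exact h3
    rw [h1, Finset.sum_congr rfl fun y _ => h2 y, Finset.sum_sub_distrib, Finset.sum_const,
      Finset.card_univ, nsmul_eq_mul]
    field_simp
    ring
  have hsum : ∀ (F : G → ℂ) (x : G) (z : H), ∑ y : H, F (x * z * y) = ∑ y : H, F (x * y) := by
    intro F x z
    rw [← Equiv.sum_comp (Equiv.mulLeft z) (fun y : H => F (x * y))]
    refine Finset.sum_congr rfl fun y _ => ?_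
    rw [Equiv.coe_mulLeft, Subgroup.coe_mul, mul_assoc]
  have h1 := rel_lower H s T hTe (zsum H) (by
    intro f hf
    obtain ⟨F, hF⟩ := exists_pot s hs f hf
    refine mem_zsum H _ fun x => ?_
    simp only [hTp f F hF, hsum]
    rw [Finset.sum_sub_distrib, Finset.sum_const, Finset.card_univ, nsmul_eq_mul]
    field_simp
    ring) (by
    intro f hf h0
    obtain ⟨F, hF⟩ := exists_pot s hs f hf
    refine mem_rCocycles_of _ s f F hF ?_
    have h1 : ∀ x, F x = (1 / (Fintype.card H : ℂ)) * ∑ y : H, F (x * y) := by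
      intro x
      have h2 := hTp f F hF x
      rw [h0] at h2
      exact (sub_eq_zero.1 h2.symm)
    intro x z hz
    rw [h1 (x * z), h1 x, hsum F x ⟨z, hz⟩])
  have h2 := dim_zsum_le H
  linarith

end

end Pool.Agent.Helper59.EXR
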