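import Pool.Agent.Helper59.EX.St.N1

/-!
EXR: walks and forests in the quotient of a Cayley graph by a subgroup; lifting of forests.
-/

namespace Pool.Agent.Helper59.EXR

open Pool.Agent.Helper59.EX

variable {G I J : Type} [Group G]

/-- Walks in the graph with vertex set `G ⧸ H`, where the edge `(g, i)` joins the class of `g` to
the class of `g * s i`. -/
def IsRWalk (H : Subgroup G) (s : I → G) : G ⧸ H → List ((G × I) × Bool) → G ⧸ H → Prop
  | a, [], b => a = b
  | a, (e, true) :: l, b => (QuotientGroup.mk e.1 : G ⧸ H) = a ∧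
      IsRWalk H s (QuotientGroup.mk (e.1 * s e.2)) l b
  | a, (e, false) :: l, b => (QuotientGroup.mk (e.1 * s e.2) : G ⧸ H) = a ∧
      IsRWalk H s (QuotientGroup.mk e.1) l b

/-- The set `ω` of edges is a forest in the graph with vertex set `G ⧸ H`. -/
def IsRForest (H : Subgroup G) (s : I → G) (ω : Set (G × I)) : Prop :=
  ∀ (a : G ⧸ H) (l : List ((G × I) × Bool)), IsRWalk H s a l a → (∀ e ∈ l, e.1 ∈ ω) →
    (l.map Prod.fst).Nodup → l = []

theorem rwalk_cons (H : Subgroup G) (s : I → G) (a b : G ⧸ H) (e : (G × I) × Bool)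
    (l : List ((G × I) × Bool)) :
    IsRWalk H s a (e :: l) b ↔ (QuotientGroup.mk (N1_src s e) : G ⧸ H) = a ∧
      IsRWalk H s (QuotientGroup.mk (N1_tgt s e)) l b := by
  obtain ⟨e, d⟩ := e
  cases d <;> simp [IsRWalk, N1_src, N1_tgt]

theorem rwalk_append (H : Subgroup G) (s : I → G) (l₁ l₂ : List ((G × I) × Bool))
    (a c : G ⧸ H) :
    IsRWalk H s a (l₁ ++ l₂) c ↔ ∃ b, IsRWalk H s a l₁ b ∧ IsRWalk H s b l₂ c := by
  induction l₁ generalizing a with
  | nil => simp [IsRWalk]
  | cons e l ih =>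
    rw [List.cons_append, rwalk_cons, ih]
    simp only [rwalk_cons]
    constructor
    · rintro ⟨h1, b, h2, h3⟩
      exact ⟨b, ⟨h1, h2⟩, h3⟩
    · rintro ⟨b, ⟨h1, h2⟩, h3⟩
      exact ⟨h1, b, h2, h3⟩

/-- A nonempty closed walk in a forest contains an edge which is passed twice in a row, in
opposite directions. -/
theorem exists_backtrack (H : Subgroup G) (s : I → G) (ω : Set (G × I))
    (hω : IsRForest H s ω) (a : G ⧸ H) (l : List ((G × I) × Bool)) (hl : IsRWalk H s a l a)
    (h : ∀ e ∈ l, e.1 ∈ ω) (hne : l ≠ []) :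
    ∃ l₁ l₂ e d, l = l₁ ++ (e, d) :: (e, !d) :: l₂ := by
  suffices K : ∀ (n : ℕ) (l : List ((G × I) × Bool)) (a : G ⧸ H), l.length ≤ n →
      IsRWalk H s a l a → (∀ e ∈ l, e.1 ∈ ω) → l ≠ [] →
      ∃ l₁ l₂ e d, l = l₁ ++ (e, d) :: (e, !d) :: l₂ from
    K l.length l a le_rfl hl h hne
  intro n
  induction n with
  | zero =>
    intro l a hn _ _ hne
    exact absurd (List.length_eq_zero_iff.1 (Nat.le_zero.1 hn)) hne
  | succ n ih =>
    intro l a hn hl hg hne
    by_cases hd : (l.map Prod.fst).Nodup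
    · exact absurd (hω a l hl hg hd) hne
    · obtain ⟨l₁, l₂, l₃, u, u', rfl, hss⟩ := N1_dup l hd
      rw [rwalk_append] at hl
      obtain ⟨b, p1, hl⟩ := hl
      rw [rwalk_cons, rwalk_append] at hl
      obtain ⟨hb, c, p2, hl⟩ := hl
      rw [rwalk_cons] at hl
      obtain ⟨hc, p3⟩ := hl
      simp only [List.length_append, List.length_cons] at hn
      obtain ⟨e, d⟩ := u
      obtain ⟨e', d'⟩ := u'
      have he : e = e' := hss
      subst he
      have g2 : ∀ t ∈ l₂, t.1 ∈ ω := fun t ht => hg t (by simp [ht])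
      have ge : e ∈ ω := hg (e, d) (by simp)
      by_cases hdd : d = d'
      · subst hdd
        have hbc : c = b := by rw [← hb, ← hc]
        subst hbc
        obtain ⟨m₁, m₂, f, o, hm⟩ := ih ((e, d) :: l₂) c (by
            simp only [List.length_cons]; omega) (by
            rw [rwalk_cons]; exact ⟨hc, p2⟩) (by
            intro t ht
            rcases List.mem_cons.1 ht with h | h
            · rw [h]; exact ge
            · exact g2 t h) (by simp)
        refine ⟨l₁ ++ m₁, m₂ ++ (e, d) :: l₃, f, o, ?_⟩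
        have h1 : (e, d) :: (l₂ ++ (e, d) :: l₃) = ((e, d) :: l₂) ++ (e, d) :: l₃ := rfl
        rw [h1, hm]
        simp [List.append_assoc]
      · have hd' : d' = !d := by cases d <;> cases d' <;> simp_all
        subst hd'
        by_cases h2 : l₂ = []
        · subst h2
          exact ⟨l₁, l₃, e, d, rfl⟩
        · have hs1 : N1_src s (e, !d) = N1_tgt s (e, d) := N1_src_flip s (e, d)
          obtain ⟨m₁, m₂, f, o, hm⟩ := ih l₂ c (by omega) (by
            rw [← hs1, hc] at p2
            exact p2) g2 h2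
          refine ⟨l₁ ++ (e, d) :: m₁, m₂ ++ (e, !d) :: l₃, f, o, ?_⟩
          rw [hm]
          simp [List.append_assoc]

/-- The generators `c j * s i * (c j)⁻¹`. -/
def tgen (c : J → G) (s : I → G) (p : J × I) : G := c p.1 * s p.2 * (c p.1)⁻¹

/-- The projection of edges. -/
def rproj (c : J → G) (e : G × (J × I)) : G × I := (e.1 * c e.2.1, e.2.2)

theorem rproj_src (H : Subgroup G) (c : J → G) (hc : ∀ j, c j ∈ H) (s : I → G)
    (e : (G × (J × I)) × Bool) :
    (QuotientGroup.mk (N1_src s (rproj c e.1, e.2)) : G ⧸ H) =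
      QuotientGroup.mk (N1_src (tgen c s) e) := by
  obtain ⟨⟨g, j, i⟩, d⟩ := e
  rw [QuotientGroup.eq]
  cases d
  · simp only [N1_src, rproj, tgen, Bool.false_eq_true, if_false]
    have : (g * c j * s i)⁻¹ * (g * (c j * s i * (c j)⁻¹)) = (c j)⁻¹ := by group
    rw [this]
    exact H.inv_mem (hc j)
  · simp only [N1_src, rproj, if_true]
    have : (g * c j)⁻¹ * g = (c j)⁻¹ := by group
    rw [this]
    exact H.inv_mem (hc j)

theorem rproj_tgt (H : Subgroup G) (c : J → G) (hc : ∀ j, c j ∈ H) (s : I → G)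
    (e : (G × (J × I)) × Bool) :
    (QuotientGroup.mk (N1_tgt s (rproj c e.1, e.2)) : G ⧸ H) =
      QuotientGroup.mk (N1_tgt (tgen c s) e) := by
  obtain ⟨e, d⟩ := e
  have h := rproj_src H c hc s (e, !d)
  have h1 : N1_src s (rproj c e, !d) = N1_tgt s (rproj c e, d) := N1_src_flip s (rproj c e, d)
  have h2 : N1_src (tgen c s) (e, !d) = N1_tgt (tgen c s) (e, d) :=
    N1_src_flip (tgen c s) (e, d)
  rw [h2] at h
  change (QuotientGroup.mk (N1_src s (rproj c e, !d)) : G ⧸ H) = _ at h
  rw [h1] at h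
  exact h

theorem rproj_walk (H : Subgroup G) (c : J → G) (hc : ∀ j, c j ∈ H) (s : I → G)
    (l : List ((G × (J × I)) × Bool)) (a b : G) (hl : IsWalk (tgen c s) a l b) :
    IsRWalk H s (QuotientGroup.mk a) (l.map fun e => (rproj c e.1, e.2))
      (QuotientGroup.mk b) := by
  induction l generalizing a with
  | nil =>
    have h : a = b := hl
    subst h
    rfl
  | cons e l ih =>
    rw [N1_walk_cons] at hl
    rw [List.map_cons, rwalk_cons, rproj_src H c hc, rproj_tgt H c hc]
    exact ⟨by rw [hl.1], ih _ hl.2⟩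

theorem rproj_inj_src (c : J → G) (hinj : Function.Injective c) (s : I → G)
    (e e' : G × (J × I)) (h : rproj c e = rproj c e')
    (h2 : N1_src (tgen c s) (e, true) = N1_src (tgen c s) (e', true)) : e = e' := by
  obtain ⟨g, j, i⟩ := e
  obtain ⟨g', j', i'⟩ := e'
  simp only [rproj, Prod.mk.injEq] at h
  simp only [N1_src, if_true] at h2
  obtain ⟨h3, rfl⟩ := h
  subst h2
  have h4 := hinj (mul_left_cancel h3)
  rw [h4]

theorem rproj_inj_tgt (c : J → G) (hinj : Function.Injective c) (s : I → G)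
    (e e' : G × (J × I)) (h : rproj c e = rproj c e')
    (h2 : N1_src (tgen c s) (e, false) = N1_src (tgen c s) (e', false)) : e = e' := by
  obtain ⟨g, j, i⟩ := e
  obtain ⟨g', j', i'⟩ := e'
  simp only [rproj, Prod.mk.injEq] at h
  simp only [N1_src, tgen, Bool.false_eq_true, if_false] at h2
  obtain ⟨h3, rfl⟩ := h
  have h5 : g * c j * s i * (c j)⁻¹ = g' * c j' * s i * (c j')⁻¹ := by
    simpa only [mul_assoc] using h2
  rw [h3] at h5
  have h4 := hinj (inv_injective (mul_left_cancel h5))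
  subst h4
  have h6 := mul_right_cancel h3
  rw [h6]

/-- Lifting of forests. -/
theorem forest_lift (H : Subgroup G) (c : J → G) (hc : ∀ j, c j ∈ H)
    (hinj : Function.Injective c) (s : I → G) (ω : Set (G × I)) (hω : IsRForest H s ω) :
    IsForest (tgen c s) (rproj c ⁻¹' ω) := by
  intro a l hl hin hnd
  by_contra hne
  obtain ⟨l₁, l₂, e, d, hm⟩ := exists_backtrack H s ω hω (QuotientGroup.mk a)
    (l.map fun e => (rproj c e.1, e.2)) (rproj_walk H c hc s l a a hl) (by
      intro t ht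
      obtain ⟨u, hu, rfl⟩ := List.mem_map.1 ht
      exact hin u hu) (by simpa using hne)
  obtain ⟨m₁, m₂, rfl, -, hm2⟩ := List.map_eq_append_iff.1 hm
  obtain ⟨u, m₃, rfl, hu, hm3⟩ := List.map_eq_cons_iff.1 hm2
  obtain ⟨v, m₄, rfl, hv, -⟩ := List.map_eq_cons_iff.1 hm3
  obtain ⟨u, d1⟩ := u
  obtain ⟨v, d2⟩ := v
  simp only [Prod.mk.injEq] at hu hv
  obtain ⟨hu1, rfl⟩ := hu
  obtain ⟨hv1, rfl⟩ := hv
  rw [N1_walk_append] at hl
  obtain ⟨b, -, hl⟩ := hl
  rw [N1_walk_cons, N1_walk_cons] at hl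
  obtain ⟨-, h2, -⟩ := hl
  have h3 : u = v := by
    cases d1
    · refine rproj_inj_src c hinj s u v (hu1.trans hv1.symm) ?_
      have h4 : N1_tgt (tgen c s) (u, false) = N1_src (tgen c s) (u, true) := by
        simp [N1_src, N1_tgt]
      rw [← h4]
      exact h2.symm
    · refine rproj_inj_tgt c hinj s u v (hu1.trans hv1.symm) ?_
      have h4 : N1_tgt (tgen c s) (u, true) = N1_src (tgen c s) (u, false) := by
        simp [N1_src, N1_tgt]
      rw [← h4]
      exact h2.symm
  subst h3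
  rw [List.map_append, List.map_cons, List.map_cons] at hnd
  have h5 := (List.nodup_append.1 hnd).2.1
  rw [List.nodup_cons] at h5
  exact h5.1 (by simp)

end Pool.Agent.Helper59.EXR
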